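import Mathlib

set_option autoImplicit false

namespace Pool.Agent.Helper97.Pendant

/-- `H` is a minor of `G`: the vertices of `H` are represented by pairwise disjoint connected
sets of vertices of `G`, with an edge of `G` between any two sets representing adjacent
vertices of `H`. -/
def IsMinor {W V : Type} (H : SimpleGraph W) (G : SimpleGraph V) : Prop :=
  ∃ B : W → Set V, (∀ a, (G.induce (B a)).Connected) ∧
    (∀ a b, a ≠ b → Disjoint (B a) (B b)) ∧
    ∀ a b, H.Adj a b → ∃ x ∈ B a, ∃ y ∈ B b, G.Adj x y

/-- `G` has a tree-decomposition all of whose bags have at most `w + 1` vertices. -/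
def HasTreeDecomposition {V : Type} (G : SimpleGraph V) (w : ℕ) : Prop :=
  ∃ (N : Type) (_ : Finite N) (T : SimpleGraph N) (bag : N → Set V), T.IsTree ∧
    (∀ v, ∃ i, v ∈ bag i) ∧
    (∀ u v, G.Adj u v → ∃ i, u ∈ bag i ∧ v ∈ bag i) ∧
    (∀ v, (T.induce {i | v ∈ bag i}).Connected) ∧
    ∀ i, (bag i).ncard ≤ w + 1

/-- The tree-width of a graph. -/
noncomputable def treewidth {V : Type} (G : SimpleGraph V) : ℕ :=
  sInf {w | HasTreeDecomposition G w}

/-- The numbers `n` such that every finite graph of tree-width at least `n` has `H` as a
minor. -/
def forcingWidths {W : Type} (H : SimpleGraph W) : Set ℕ :=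
  {n | ∀ (V : Type) (_ : Finite V) (G : SimpleGraph V), n ≤ treewidth G → IsMinor H G}

/-- `f(H)`, the least integer such that every finite graph of tree-width at least `f(H)` has
`H` as a minor. -/
noncomputable def minorForcingWidth {W : Type} (H : SimpleGraph W) : ℕ :=
  sInf (forcingWidths H)

/-- The graph obtained from `H` by adding a new vertex `none` whose only neighbour is `v`. -/
def attachPendant {W : Type} (H : SimpleGraph W) (v : W) : SimpleGraph (Option W) where
  Adj x y := match x, y with
    | some a, some b => H.Adj a b
    | some a, none => a = v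
    | none, some b => b = v
    | none, none => False
  symm := by
    constructor
    rintro (_ | a) (_ | b) h
    · exact h
    · exact h
    · exact h
    · exact SimpleGraph.Adj.symm (G := H) h
  loopless := by
    constructor
    rintro (_ | a) h
    · exact h
    · exact H.loopless.irrefl a h

/-- The disjoint union of `k` triangles and `m` isolated vertices. -/
def trianglesAndPoints (k m : ℕ) : SimpleGraph ((Fin k × Fin 3) ⊕ Fin m) where
  Adj x y := match x, y with
    | Sum.inl a, Sum.inl b => a.1 = b.1 ∧ a.2 ≠ b.2
    | _, _ => False
  symm := by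
    constructor
    rintro (a | a) (b | b) h
    · exact ⟨h.1.symm, h.2.symm⟩
    · exact h
    · exact h
    · exact h
  loopless := by
    constructor
    rintro (a | a) h
    · exact h.2 rfl
    · exact h

/-- `H` has a straight-line drawing in the plane without crossings: distinct vertices are
distinct points, no vertex lies on the segment of an edge it is not an end of, and the segments
of two edges without a common end are disjoint.  In particular `H` is planar. -/
def HasPlaneDrawing {W : Type} (H : SimpleGraph W) : Prop :=
  ∃ pos : W → ℝ × ℝ, Function.Injective pos ∧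
    (∀ a b c, H.Adj a b → c ≠ a → c ≠ b → pos c ∉ segment ℝ (pos a) (pos b)) ∧
    ∀ a b c d, H.Adj a b → H.Adj c d → a ≠ c → a ≠ d → b ≠ c → b ≠ d →
      Disjoint (segment ℝ (pos a) (pos b)) (segment ℝ (pos c) (pos d))

end Pool.Agent.Helper97.Pendant
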