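import Mathlib
import Pool.Agent.Helper97.Pendant.Defs

set_option autoImplicit false

namespace Pool.Agent.Helper97.Pendant

open SimpleGraph

variable {V W U : Type}

/-- The induced subgraph of an induced subgraph. -/
noncomputable def induceInduceIso (G : SimpleGraph V) (S : Set V) (B : Set S) :
    (G.induce S).induce B ≃g G.induce (Subtype.val '' B) where
  toEquiv := Equiv.Set.image Subtype.val B Subtype.val_injective
  map_rel_iff' := by
    intro a b
    exact Iff.rfl

lemma conn_image (G : SimpleGraph V) {S : Set V} (B : Set S) :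
    ((G.induce S).induce B).Connected ↔ (G.induce (Subtype.val '' B)).Connected :=
  (induceInduceIso G S B).connected_iff

lemma acyclic_image (G : SimpleGraph V) {S : Set V} (B : Set S) :
    ((G.induce S).induce B).IsAcyclic ↔ (G.induce (Subtype.val '' B)).IsAcyclic :=
  (induceInduceIso G S B).isAcyclic_iff

lemma image_preimage_val {S B : Set V} (h : B ⊆ S) :
    Subtype.val '' (Subtype.val ⁻¹' B : Set S) = B := by
  ext x
  simp only [Set.mem_image, Set.mem_preimage, Subtype.exists, exists_and_left, exists_prop,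
    exists_eq_right_right, and_iff_left_iff_imp]
  exact fun hx => h hx

lemma conn_preimage (G : SimpleGraph V) {S B : Set V} (h : B ⊆ S) :
    ((G.induce S).induce (Subtype.val ⁻¹' B : Set S)).Connected ↔ (G.induce B).Connected := by
  rw [conn_image, image_preimage_val h]

lemma acyclic_preimage (G : SimpleGraph V) {S B : Set V} (h : B ⊆ S) :
    ((G.induce S).induce (Subtype.val ⁻¹' B : Set S)).IsAcyclic ↔ (G.induce B).IsAcyclic := by
  rw [acyclic_image, image_preimage_val h]

/-- A minor model all of whose branch sets lie in `S`. -/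
def MinorIn (H : SimpleGraph W) (G : SimpleGraph V) (S : Set V) : Prop :=
  ∃ B : W → Set V, (∀ a, B a ⊆ S) ∧ (∀ a, (G.induce (B a)).Connected) ∧
    (∀ a b, a ≠ b → Disjoint (B a) (B b)) ∧
    ∀ a b, H.Adj a b → ∃ x ∈ B a, ∃ y ∈ B b, G.Adj x y

lemma isMinor_induce_iff (H : SimpleGraph W) (G : SimpleGraph V) (S : Set V) :
    IsMinor H (G.induce S) ↔ MinorIn H G S := by
  constructor
  · rintro ⟨B, h1, h2, h3⟩
    refine ⟨fun a => Subtype.val '' B a, ?_, ?_, ?_, ?_⟩
    · rintro a x ⟨y, -, rfl⟩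
      exact y.2
    · exact fun a => (conn_image G (B a)).1 (h1 a)
    · intro a b hab
      exact (Set.disjoint_image_iff Subtype.val_injective).2 (h2 a b hab)
    · intro a b hab
      obtain ⟨x, hx, y, hy, hxy⟩ := h3 a b hab
      exact ⟨x, ⟨x, hx, rfl⟩, y, ⟨y, hy, rfl⟩, hxy⟩
  · rintro ⟨B, h0, h1, h2, h3⟩
    refine ⟨fun a => Subtype.val ⁻¹' B a, ?_, ?_, ?_⟩
    · exact fun a => (conn_preimage G (h0 a)).2 (h1 a)
    · intro a b hab
      exact (h2 a b hab).preimage _
    · intro a b hab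
      obtain ⟨x, hx, y, hy, hxy⟩ := h3 a b hab
      exact ⟨⟨x, h0 a hx⟩, hx, ⟨y, h0 b hy⟩, hy, hxy⟩

lemma MinorIn.mono {H : SimpleGraph W} {G : SimpleGraph V} {S S' : Set V} (h : MinorIn H G S)
    (hS : S ⊆ S') : MinorIn H G S' := by
  obtain ⟨B, h0, h1, h2, h3⟩ := h
  exact ⟨B, fun a => (h0 a).trans hS, h1, h2, h3⟩

lemma minorIn_univ_iff (H : SimpleGraph W) (G : SimpleGraph V) :
    MinorIn H G Set.univ ↔ IsMinor H G := by
  constructor
  · rintro ⟨B, -, h⟩; exact ⟨B, h⟩
  · rintro ⟨B, h⟩; exact ⟨B, fun _ => Set.subset_univ _, h⟩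

lemma MinorIn.isMinor {H : SimpleGraph W} {G : SimpleGraph V} {S : Set V} (h : MinorIn H G S) :
    IsMinor H G := (minorIn_univ_iff H G).1 (h.mono (Set.subset_univ S))

/-- Unions of connected sets over a connected set of indices are connected. -/
lemma conn_biUnion {M : SimpleGraph W} {G : SimpleGraph V} {P : W → Set V}
    (hP : ∀ a, (G.induce (P a)).Connected)
    (hadj : ∀ a b, M.Adj a b → ∃ x ∈ P a, ∃ y ∈ P b, G.Adj x y)
    {S : Set W} (hS : (M.induce S).Connected) :
    (G.induce (⋃ a ∈ S, P a)).Connected := by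
  obtain ⟨⟨a0, ha0⟩⟩ := hS.nonempty
  obtain ⟨⟨u0, hu0⟩⟩ := (hP a0).nonempty
  refine induce_connected_of_patches u0 (Set.mem_biUnion ha0 hu0) ?_
  -- every vertex is in a connected patch
  have key : ∀ (b : S), (M.induce S).Reachable ⟨a0, ha0⟩ b →
      ∃ s' : Set V, s' ⊆ (⋃ a ∈ S, P a) ∧ P a0 ⊆ s' ∧ P b ⊆ s' ∧ (G.induce s').Connected := by
    intro b hb
    obtain ⟨w⟩ := hb
    -- induction along the walk, from the end
    have : ∀ (x y : S) (w : (M.induce S).Walk x y), ∃ s' : Set V, s' ⊆ (⋃ a ∈ S, P a) ∧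
        P x ⊆ s' ∧ P y ⊆ s' ∧ (G.induce s').Connected := by
      intro x y w
      induction w with
      | @nil u => exact ⟨P u, Set.subset_biUnion_of_mem (u := P) u.2, subset_rfl, subset_rfl, hP u⟩
      | @cons u v w h p ih =>
        obtain ⟨s', h1, h2, h3, h4⟩ := ih
        obtain ⟨x, hx, y, hy, hxy⟩ := hadj u v h
        refine ⟨P u ∪ s', Set.union_subset (Set.subset_biUnion_of_mem (u := P) u.2) h1,
          Set.subset_union_left, h3.trans Set.subset_union_right, ?_⟩
        exact connected_induce_union (hP u).preconnected h4.preconnected hx (h2 hy) hxy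
    exact this _ _ w
  intro v hv
  simp only [Set.mem_iUnion, exists_prop] at hv
  obtain ⟨b, hb, hvb⟩ := hv
  obtain ⟨s', h1, h2, h3, h4⟩ := key ⟨b, hb⟩ (hS.preconnected _ _)
  exact ⟨s', h1, h2 hu0, h3 hvb, h4.preconnected _ _⟩

lemma IsMinor.trans {H : SimpleGraph U} {M : SimpleGraph W} {G : SimpleGraph V}
    (h1 : IsMinor H M) (h2 : IsMinor M G) : IsMinor H G := by
  obtain ⟨B, hB1, hB2, hB3⟩ := h1
  obtain ⟨P, hP1, hP2, hP3⟩ := h2
  refine ⟨fun a => ⋃ c ∈ B a, P c, fun a => conn_biUnion hP1 hP3 (hB1 a), ?_, ?_⟩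
  · intro a b hab
    rw [Set.disjoint_left]
    intro x hx hy
    simp only [Set.mem_iUnion, exists_prop] at hx hy
    obtain ⟨c, hc, hxc⟩ := hx
    obtain ⟨d, hd, hxd⟩ := hy
    by_cases hcd : c = d
    · subst hcd
      exact Set.disjoint_left.1 (hB2 a b hab) hc hd
    · exact Set.disjoint_left.1 (hP2 c d hcd) hxc hxd
  · intro a b hab
    obtain ⟨c, hc, d, hd, hcd⟩ := hB3 a b hab
    obtain ⟨x, hx, y, hy, hxy⟩ := hP3 c d hcd
    refine ⟨x, ?_, y, ?_, hxy⟩
    · simp only [Set.mem_iUnion, exists_prop]; exact ⟨c, hc, hx⟩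
    · simp only [Set.mem_iUnion, exists_prop]; exact ⟨d, hd, hy⟩

end Pool.Agent.Helper97.Pendant
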