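import Mathlib
import Pool.Agent.Helper97.Pendant.Basic

set_option autoImplicit false

namespace Pool.Agent.Helper97.Pendant

open SimpleGraph

variable {V W U : Type}

/-- The set `C` induces a graph containing a cycle. -/
def NonAc (G : SimpleGraph V) (C : Set V) : Prop := ¬ (G.induce C).IsAcyclic

lemma NonAc.mono {G : SimpleGraph V} {C D : Set V} (h : NonAc G C) (hCD : C ⊆ D) : NonAc G D := by
  intro hD
  apply h
  exact hD.comap (induceHomOfLE G hCD).toHom (induceHomOfLE G hCD).injective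

lemma induce_deleteEdge_eq (G : SimpleGraph V) {B : Set V} {x y : V} (h : ¬ (x ∈ B ∧ y ∈ B)) :
    (G.deleteEdges {s(x, y)}).induce B = G.induce B := by
  ext ⟨a, ha⟩ ⟨b, hb⟩
  simp only [comap_adj, Function.Embedding.subtype_apply, deleteEdges_adj, Set.mem_singleton_iff,
    Sym2.eq, Sym2.rel_iff', Prod.mk.injEq, Prod.swap_prod_mk, and_iff_left_iff_imp]
  rintro - (⟨rfl, rfl⟩ | ⟨rfl, rfl⟩)
  · exact h ⟨ha, hb⟩
  · exact h ⟨hb, ha⟩

lemma nonAc_of_deleteEdge {G : SimpleGraph V} {C : Set V} {x y : V} (hxy : G.Adj x y)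
    (hx : x ∈ C) (hy : y ∈ C) (h : ((G.deleteEdges {s(x, y)}).induce C).Preconnected) :
    NonAc G C := by
  intro hac
  have h1 := isAcyclic_iff_forall_adj_isBridge.1 hac (v := ⟨x, hx⟩) (w := ⟨y, hy⟩) hxy
  rw [isBridge_iff] at h1
  apply h1
  refine (h ⟨x, hx⟩ ⟨y, hy⟩).mono ?_
  rintro ⟨a, ha⟩ ⟨b, hb⟩ hab
  simp only [comap_adj, Function.Embedding.subtype_apply, deleteEdges_adj,
    Set.mem_singleton_iff, Sym2.eq, Sym2.rel_iff', Prod.mk.injEq, Prod.swap_prod_mk] at hab ⊢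
  refine ⟨hab.1, fun h => hab.2 ?_⟩
  simpa only [Subtype.mk.injEq] using h

lemma nonAc_of_model {G : SimpleGraph V} {A B C : Set V} (hA : (G.induce A).Connected)
    (hB : (G.induce B).Connected) (hC : (G.induce C).Connected) (hAB : Disjoint A B)
    (hAC : Disjoint A C) (hBC : Disjoint B C)
    (e1 : ∃ x ∈ A, ∃ y ∈ B, G.Adj x y) (e2 : ∃ x ∈ A, ∃ y ∈ C, G.Adj x y)
    (e3 : ∃ x ∈ B, ∃ y ∈ C, G.Adj x y) : NonAc G (A ∪ B ∪ C) := by
  obtain ⟨x, hx, y, hy, hxy⟩ := e1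
  obtain ⟨x1, hx1, z1, hz1, h1⟩ := e2
  obtain ⟨y2, hy2, z2, hz2, h2⟩ := e3
  refine nonAc_of_deleteEdge hxy (Or.inl (Or.inl hx)) (Or.inl (Or.inr hy)) ?_
  have hxB : x ∉ B := Set.disjoint_left.1 hAB hx
  have hxC : x ∉ C := Set.disjoint_left.1 hAC hx
  have hyA : y ∉ A := Set.disjoint_right.1 hAB hy
  have hyC : y ∉ C := Set.disjoint_left.1 hBC hy
  have hA' : ((G.deleteEdges {s(x, y)}).induce A).Connected := by
    rw [induce_deleteEdge_eq G (fun h => hyA h.2)]; exact hA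
  have hB' : ((G.deleteEdges {s(x, y)}).induce B).Connected := by
    rw [induce_deleteEdge_eq G (fun h => hxB h.1)]; exact hB
  have hC' : ((G.deleteEdges {s(x, y)}).induce C).Connected := by
    rw [induce_deleteEdge_eq G (fun h => hxC h.1)]; exact hC
  have a1 : (G.deleteEdges {s(x, y)}).Adj x1 z1 := by
    rw [deleteEdges_adj]
    refine ⟨h1, ?_⟩
    simp only [Set.mem_singleton_iff, Sym2.eq, Sym2.rel_iff', Prod.mk.injEq, Prod.swap_prod_mk]
    rintro (⟨-, rfl⟩ | ⟨rfl, -⟩)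
    · exact hyC hz1
    · exact hyA hx1
  have a2 : (G.deleteEdges {s(x, y)}).Adj z2 y2 := by
    rw [deleteEdges_adj]
    refine ⟨h2.symm, ?_⟩
    simp only [Set.mem_singleton_iff, Sym2.eq, Sym2.rel_iff', Prod.mk.injEq, Prod.swap_prod_mk]
    rintro (⟨rfl, -⟩ | ⟨-, rfl⟩)
    · exact hxC hz2
    · exact hxB hy2
  have h3 := connected_induce_union hA'.preconnected hC'.preconnected hx1 hz1 a1
  have h4 := connected_induce_union h3.preconnected hB'.preconnected
    (Or.inr hz2 : z2 ∈ A ∪ C) hy2 a2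
  have h5 : A ∪ C ∪ B = A ∪ B ∪ C := by
    rw [Set.union_assoc, Set.union_comm C B, ← Set.union_assoc]
  rw [← h5]
  exact h4.preconnected

lemma conn_singleton (G : SimpleGraph V) (x : V) : (G.induce {x}).Connected := by
  have : Nonempty ({x} : Set V) := ⟨⟨x, rfl⟩⟩
  exact Connected.of_subsingleton

lemma nonAc_insert {G : SimpleGraph V} {Q : Set V} (hQ : (G.induce Q).Connected) {x a b : V}
    (hx : x ∉ Q) (ha : a ∈ Q) (hb : b ∈ Q) (hab : a ≠ b) (hxa : G.Adj x a) (hxb : G.Adj x b) :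
    NonAc G (insert x Q) := by
  refine nonAc_of_deleteEdge hxa (Set.mem_insert _ _) (Set.mem_insert_of_mem _ ha) ?_
  have hQ' : ((G.deleteEdges {s(x, a)}).induce Q).Connected := by
    rw [induce_deleteEdge_eq G (fun h => hx h.1)]; exact hQ
  have a1 : (G.deleteEdges {s(x, a)}).Adj x b := by
    rw [deleteEdges_adj]
    refine ⟨hxb, ?_⟩
    simp only [Set.mem_singleton_iff, Sym2.eq, Sym2.rel_iff', Prod.mk.injEq, Prod.swap_prod_mk]
    rintro (⟨-, rfl⟩ | ⟨rfl, -⟩)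
    · exact hab rfl
    · exact hx ha
  have h3 := connected_induce_union (conn_singleton (G.deleteEdges {s(x, a)}) x).preconnected
    hQ'.preconnected rfl hb a1
  rw [Set.insert_eq]
  exact h3.preconnected

lemma exists_triple_of_nonAc {G : SimpleGraph V} {C : Set V} (h : NonAc G C) :
    ∃ (x y : V) (Q : Set V), x ∈ C ∧ y ∈ C ∧ Q ⊆ C ∧ x ≠ y ∧ x ∉ Q ∧ y ∉ Q ∧ G.Adj x y ∧
      (G.induce Q).Connected ∧ (∃ a ∈ Q, G.Adj x a) ∧ (∃ b ∈ Q, G.Adj y b) := by
  unfold NonAc at h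
  rw [isAcyclic_iff_forall_adj_isBridge] at h
  push Not at h
  obtain ⟨v, w, hvw, hb⟩ := h
  rw [isBridge_iff, not_not] at hb
  obtain ⟨p, hp⟩ := hb.exists_isPath
  have hne : v ≠ w := hvw.ne
  cases p with
  | nil => exact absurd rfl hne
  | @cons _ a _ h1 p1 =>
    rw [Walk.cons_isPath_iff] at hp
    obtain ⟨hp1, hv1⟩ := hp
    have haw : a ≠ w := by
      rintro rfl
      rw [deleteEdges_adj] at h1
      exact h1.2 rfl
    obtain ⟨q, hq, hqs⟩ : ∃ q : ((G.induce C).deleteEdges {s(v, w)}).Walk w a, q.IsPath ∧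
        q.support = p1.support.reverse := ⟨p1.reverse, hp1.reverse, Walk.support_reverse p1⟩
    cases q with
    | nil => exact absurd rfl haw
    | @cons _ b _ h2 q1 =>
      rw [Walk.cons_isPath_iff] at hq
      obtain ⟨hq1, hw1⟩ := hq
      have hv2 : v ∉ q1.support := by
        intro hv
        apply hv1
        have : v ∈ p1.support.reverse := by
          rw [← hqs, Walk.support_cons]
          exact List.mem_cons_of_mem _ hv
        simpa using this
      refine ⟨v, w, Subtype.val '' {u | u ∈ q1.support}, v.2, w.2, ?_, ?_, ?_, ?_, hvw, ?_, ?_, ?_⟩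
      · rintro x ⟨y, -, rfl⟩; exact y.2
      · exact fun h => hne (Subtype.ext h)
      · rintro ⟨y, hy, hyv⟩
        rw [Subtype.ext hyv] at hy
        exact hv2 hy
      · rintro ⟨y, hy, hyv⟩
        rw [Subtype.ext hyv] at hy
        exact hw1 hy
      · rw [← conn_image]
        refine (q1.connected_induce_support).mono ?_
        intro x y hxy
        exact (deleteEdges_adj.1 (show ((induce C G).deleteEdges {s(v, w)}).Adj x y from hxy)).1
      · exact ⟨a, ⟨a, Walk.end_mem_support _, rfl⟩, (deleteEdges_adj.1 h1).1⟩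
      · exact ⟨b, ⟨b, Walk.start_mem_support _, rfl⟩, (deleteEdges_adj.1 h2).1⟩

lemma nonAc_of_triple {G : SimpleGraph V} {x y : V} {Q : Set V} (hxQ : x ∉ Q)
    (hyQ : y ∉ Q) (h : G.Adj x y) (hQ : (G.induce Q).Connected) (hxa : ∃ a ∈ Q, G.Adj x a)
    (hyb : ∃ b ∈ Q, G.Adj y b) : NonAc G ({x} ∪ {y} ∪ Q) := by
  refine nonAc_of_model (conn_singleton G x) (conn_singleton G y) hQ ?_ ?_ ?_ ?_ ?_ ?_
  · simpa using h.ne
  · simpa using hxQ
  · simpa using hyQ
  · exact ⟨x, rfl, y, rfl, h⟩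
  · obtain ⟨a, ha, hxa⟩ := hxa; exact ⟨x, rfl, a, ha, hxa⟩
  · obtain ⟨a, ha, hxa⟩ := hyb; exact ⟨y, rfl, a, ha, hxa⟩

end Pool.Agent.Helper97.Pendant
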