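import Mathlib
import Pool.Agent.Helper97.Pendant.Cycles

set_option autoImplicit false

namespace Pool.Agent.Helper97.Pendant

open SimpleGraph

variable {V W U : Type}

/-- A vertex set in which every vertex has two neighbours contains a cycle. -/
lemma nonAc_of_two_le [Finite V] {G : SimpleGraph V} {S : Set V} (hS : S.Nonempty)
    (h : ∀ v ∈ S, 2 ≤ (G.neighborSet v ∩ S).ncard) : NonAc G S := by
  classical
  intro hac
  obtain ⟨v, hv⟩ := hS
  set F := G.induce S with hF
  have hT := hac.isTree_connectedComponent (F.connectedComponentMk ⟨v, hv⟩)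
  set c := F.connectedComponentMk ⟨v, hv⟩ with hc
  have key : ∀ x : c, ∃ y z : c, y ≠ z ∧ c.toSimpleGraph.Adj x y ∧ c.toSimpleGraph.Adj x z := by
    rintro ⟨⟨x, hxS⟩, hx⟩
    have h2 := h x hxS
    obtain ⟨y, z, hy, hz, hyz⟩ := (Set.one_lt_ncard_iff (Set.toFinite _)).1
      (show 1 < (G.neighborSet x ∩ S).ncard by omega)
    have hy' : F.Adj ⟨x, hxS⟩ ⟨y, hy.2⟩ := hy.1
    have hz' : F.Adj ⟨x, hxS⟩ ⟨z, hz.2⟩ := hz.1
    have hx' : F.connectedComponentMk ⟨x, hxS⟩ = c := hx
    have hyc : (⟨y, hy.2⟩ : S) ∈ c.supp := by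
      rw [ConnectedComponent.mem_supp_iff, ← hx']
      exact (ConnectedComponent.sound hy'.reachable).symm
    have hzc : (⟨z, hz.2⟩ : S) ∈ c.supp := by
      rw [ConnectedComponent.mem_supp_iff, ← hx']
      exact (ConnectedComponent.sound hz'.reachable).symm
    refine ⟨⟨⟨y, hy.2⟩, hyc⟩, ⟨⟨z, hz.2⟩, hzc⟩, ?_, hy', hz'⟩
    intro h
    apply hyz
    exact congrArg (fun t : c => ((t : S) : V)) h
  have : Finite c := inferInstance
  have := Fintype.ofFinite c
  have hnt : Nontrivial c := by
    obtain ⟨y, z, hyz, -, -⟩ := key ⟨⟨v, hv⟩, rfl⟩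
    exact ⟨y, z, hyz⟩
  obtain ⟨x, hx⟩ := hT.exists_vert_degree_one_of_nontrivial
  obtain ⟨y, z, hyz, hy, hz⟩ := key x
  rw [degree_eq_one_iff_existsUnique_adj] at hx
  exact hyz (hx.unique hy hz)

/-- A set containing a cycle contains a subset in which every vertex has two neighbours. -/
lemma exists_core_of_nonAc [Finite V] {G : SimpleGraph V} {C : Set V} (h : NonAc G C) :
    ∃ D ⊆ C, D.Nonempty ∧ ∀ v ∈ D, 2 ≤ (G.neighborSet v ∩ D).ncard := by
  classical
  unfold NonAc IsAcyclic at h
  push Not at h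
  obtain ⟨u, c, hc⟩ := h
  refine ⟨Subtype.val '' {x | x ∈ c.support}, ?_, ⟨u, u, c.start_mem_support, rfl⟩, ?_⟩
  · rintro x ⟨y, -, rfl⟩; exact y.2
  · rintro _ ⟨x, hx, rfl⟩
    have hx' : x ∈ c.support := hx
    have hrot := hc.rotate hx'
    set r := c.rotate x hx' with hr
    have hn := hrot.not_nil
    have h1 := r.adj_snd hn
    have h2 := (r.adj_penultimate hn).symm
    have h3 := hrot.snd_ne_penultimate
    have hsub : ∀ y, y ∈ r.support → y ∈ c.support := by
      intro y hy
      rw [hr, Walk.mem_support_rotate_iff] at hy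
      exact hy
    have hm1 : r.snd ∈ c.support := hsub _ (Walk.getVert_mem_support _ _)
    have hm2 : r.penultimate ∈ c.support := hsub _ (Walk.getVert_mem_support _ _)
    have : 1 < (G.neighborSet (x : V) ∩ Subtype.val '' {x | x ∈ c.support}).ncard := by
      rw [Set.one_lt_ncard_iff (Set.toFinite _)]
      refine ⟨r.snd, r.penultimate, ⟨h1, ⟨_, hm1, rfl⟩⟩, ⟨h2, ⟨_, hm2, rfl⟩⟩, ?_⟩
      exact fun h => h3 (Subtype.ext h)
    omega

/-- `S` contains `k` pairwise disjoint sets inducing graphs with cycles. -/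
def Pack (G : SimpleGraph V) (k : ℕ) (S : Set V) : Prop :=
  ∃ C : Fin k → Set V, (∀ i, C i ⊆ S) ∧ (∀ i, NonAc G (C i)) ∧
    ∀ i j, i ≠ j → Disjoint (C i) (C j)

lemma Pack.mono {G : SimpleGraph V} {k : ℕ} {S T : Set V} (h : Pack G k S) (hST : S ⊆ T) :
    Pack G k T := by
  obtain ⟨C, h1, h2, h3⟩ := h
  exact ⟨C, fun i => (h1 i).trans hST, h2, h3⟩

lemma pack_zero (G : SimpleGraph V) (S : Set V) : Pack G 0 S :=
  ⟨fun i => i.elim0, fun i => i.elim0, fun i => i.elim0, fun i => i.elim0⟩

lemma Pack.succ {G : SimpleGraph V} {k : ℕ} {S C : Set V} (hC : NonAc G C) (hCS : C ⊆ S)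
    (h : Pack G k (S \ C)) : Pack G (k + 1) S := by
  obtain ⟨D, h1, h2, h3⟩ := h
  refine ⟨Fin.cons C D, ?_, ?_, ?_⟩
  · intro i
    refine Fin.cases ?_ (fun j => ?_) i
    · simpa using hCS
    · simpa using (h1 j).trans Set.sdiff_subset
  · intro i
    refine Fin.cases ?_ (fun j => ?_) i
    · simpa using hC
    · simpa using h2 j
  · intro i j
    refine Fin.cases ?_ (fun i => ?_) i <;> refine Fin.cases ?_ (fun j => ?_) j
    · intro h; exact absurd rfl h
    · intro _
      simp only [Fin.cons_zero, Fin.cons_succ]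
      exact (Set.disjoint_sdiff_right.mono_right (h1 j))
    · intro _
      simp only [Fin.cons_zero, Fin.cons_succ]
      exact (Set.disjoint_sdiff_right.mono_right (h1 i)).symm
    · intro h
      simp only [Fin.cons_succ]
      exact h3 i j (fun h' => h (by rw [h']))

/-- Every nonempty set in which all vertices have at least `3 k` neighbours contains `k`
disjoint cycles. -/
lemma pack_of_minDegree [Finite V] (G : SimpleGraph V) : ∀ (k : ℕ) (S : Set V), S.Nonempty →
    (∀ v ∈ S, 3 * k ≤ (G.neighborSet v ∩ S).ncard) → Pack G k S := by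
  intro k
  induction k with
  | zero => intro S _ _; exact pack_zero G S
  | succ k ih =>
    intro S hS hdeg
    have hnS : NonAc G S := nonAc_of_two_le hS (fun v hv => by have := hdeg v hv; omega)
    obtain ⟨C, ⟨hCS, hC⟩, hmin⟩ := Set.exists_min_image {C : Set V | C ⊆ S ∧ NonAc G C}
      (fun C => C.ncard) (Set.toFinite _) ⟨S, subset_rfl, hnS⟩
    obtain ⟨x0, y0, Q, hx0, hy0, hQC, hxy0, hx0Q, hy0Q, hadj, hQ, ha, hb⟩ :=
      exists_triple_of_nonAc hC
    have hC2 : NonAc G ({x0} ∪ {y0} ∪ Q) := nonAc_of_triple hx0Q hy0Q hadj hQ ha hb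
    have hsub : {x0} ∪ {y0} ∪ Q ⊆ C := by
      rintro z ((rfl | rfl) | hz)
      · exact hx0
      · exact hy0
      · exact hQC hz
    have hCeq : {x0} ∪ {y0} ∪ Q = C :=
      Set.eq_of_subset_of_ncard_le hsub (hmin _ ⟨hsub.trans hCS, hC2⟩) (Set.toFinite _)
    have hcard : C.ncard = Q.ncard + 2 := by
      rw [← hCeq, Set.union_assoc, Set.singleton_union, Set.singleton_union,
        Set.ncard_insert_of_notMem (by simp [hxy0, hx0Q]) (Set.toFinite _),
        Set.ncard_insert_of_notMem hy0Q (Set.toFinite _)]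
    -- vertices outside have few neighbours in `C`
    have hout : ∀ x ∈ S \ C, (G.neighborSet x ∩ C).ncard ≤ 3 := by
      intro x hx
      by_contra hcon
      push Not at hcon
      have h1 : G.neighborSet x ∩ C ⊆ {x0, y0} ∪ (G.neighborSet x ∩ Q) := by
        rintro z ⟨hz1, hz2⟩
        rw [← hCeq] at hz2
        rcases hz2 with (h | h) | h
        · left; left; exact h
        · left; right; exact h
        · right; exact ⟨hz1, h⟩
      have h2 := (Set.ncard_le_ncard h1 (Set.toFinite _)).trans (Set.ncard_union_le _ _)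
      have h3 : ({x0, y0} : Set V).ncard ≤ 2 := by
        have := Set.ncard_insert_le x0 ({y0} : Set V)
        rw [Set.ncard_singleton] at this
        exact this
      have h4 : 1 < (G.neighborSet x ∩ Q).ncard := by omega
      obtain ⟨a, b, ha, hb, hab⟩ := (Set.one_lt_ncard_iff (Set.toFinite _)).1 h4
      have hxQ : x ∉ Q := fun h => hx.2 (hQC h)
      have h5 : NonAc G (insert x Q) := nonAc_insert hQ hxQ ha.2 hb.2 hab ha.1 hb.1
      have h6 := hmin (insert x Q) ⟨Set.insert_subset hx.1 (hQC.trans hCS), h5⟩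
      have h7 := Set.ncard_insert_le x Q
      omega
    rcases Nat.eq_zero_or_pos k with rfl | hk
    · exact Pack.succ hC hCS (pack_zero G _)
    · refine Pack.succ hC hCS (ih (S \ C) ?_ ?_)
      · by_contra hemp
        rw [Set.not_nonempty_iff_eq_empty, Set.sdiff_eq_empty] at hemp
        have hSC : C = S := Set.Subset.antisymm hCS hemp
        have h8 : NonAc G (S \ {x0}) := by
          refine nonAc_of_two_le ⟨y0, hCS hy0, fun h => hxy0 (by simpa using h.symm)⟩ ?_
          intro v hv
          have h9 := hdeg v hv.1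
          have h10 : G.neighborSet v ∩ S ⊆ insert x0 (G.neighborSet v ∩ (S \ {x0})) := by
            rintro z ⟨hz1, hz2⟩
            by_cases hzx : z = x0
            · left; exact hzx
            · right; exact ⟨hz1, hz2, hzx⟩
          have h11 := (Set.ncard_le_ncard h10 (Set.toFinite _)).trans (Set.ncard_insert_le _ _)
          omega
        have h12 := hmin _ ⟨Set.sdiff_subset, h8⟩
        have h13 : (S \ {x0}).ncard < S.ncard := Set.ncard_sdiff_singleton_lt_of_mem (hCS hx0)
        rw [hSC] at h12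
        omega
      · intro v hv
        have h9 := hdeg v hv.1
        have h10 : G.neighborSet v ∩ S ⊆ (G.neighborSet v ∩ C) ∪ (G.neighborSet v ∩ (S \ C)) := by
          rintro z ⟨hz1, hz2⟩
          by_cases hzx : z ∈ C
          · left; exact ⟨hz1, hzx⟩
          · right; exact ⟨hz1, hz2, hzx⟩
        have h11 := (Set.ncard_le_ncard h10 (Set.toFinite _)).trans (Set.ncard_union_le _ _)
        have h12 := hout v hv
        omega

end Pool.Agent.Helper97.Pendant
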