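import Mathlib
import Pool.Agent.Helper97.Pendant.Packing

set_option autoImplicit false

namespace Pool.Agent.Helper97.Pendant

open SimpleGraph

variable {V W U : Type}

lemma IsMinor.of_hom {W' : Type} {H : SimpleGraph W} {H' : SimpleGraph W'} {G : SimpleGraph V}
    (φ : W → W') (hφ : Function.Injective φ) (hadj : ∀ a b, H.Adj a b → H'.Adj (φ a) (φ b))
    (h : IsMinor H' G) : IsMinor H G := by
  obtain ⟨B, h1, h2, h3⟩ := h
  exact ⟨fun a => B (φ a), fun a => h1 _, fun a b hab => h2 _ _ (fun h => hab (hφ h)),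
    fun a b hab => h3 _ _ (hadj a b hab)⟩

lemma exists_injection [Finite V] {T : Set V} {m : ℕ} (h : m ≤ T.ncard) :
    ∃ f : Fin m → V, Function.Injective f ∧ ∀ i, f i ∈ T := by
  classical
  have := Fintype.ofFinite T
  have h1 : Fintype.card (Fin m) ≤ Fintype.card T := by
    rw [Fintype.card_fin, ← Nat.card_eq_fintype_card, Nat.card_coe_set_eq]; exact h
  obtain ⟨f⟩ := Function.Embedding.nonempty_of_card_le h1
  exact ⟨fun i => f i, fun i j hij => f.injective (Subtype.ext hij), fun i => (f i).2⟩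

lemma le_ncard_of_injection [Finite V] {T : Set V} {m : ℕ} (f : Fin m → V)
    (hf : Function.Injective f) (hT : ∀ i, f i ∈ T) : m ≤ T.ncard := by
  have h1 : (Set.range f).ncard = m := by
    rw [← Set.image_univ, Set.ncard_image_of_injective _ hf, Set.ncard_univ, Nat.card_eq_fintype_card,
      Fintype.card_fin]
  rw [← h1]
  apply Set.ncard_le_ncard _ (Set.toFinite _)
  rintro _ ⟨i, rfl⟩
  exact hT i

lemma minorIn_of_pack [Finite V] {G : SimpleGraph V} {k m : ℕ} {S R : Set V} (h : Pack G k S)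
    (hSR : S ⊆ R) (hm : m ≤ (R \ S).ncard) : MinorIn (trianglesAndPoints k m) G R := by
  obtain ⟨C, hC1, hC2, hC3⟩ := h
  choose x y Q hx hy hQC hxy hxQ hyQ hadj hQ ha hb using fun i => exists_triple_of_nonAc (hC2 i)
  obtain ⟨f, hf1, hf2⟩ := exists_injection hm
  let D : Fin k → Fin 3 → Set V := fun i j => if j = 0 then {x i} else if j = 1 then {y i} else Q i
  have hD0 : ∀ i, D i 0 = {x i} := fun i => rfl
  have hD1 : ∀ i, D i 1 = {y i} := fun i => rfl
  have hD2 : ∀ i, D i 2 = Q i := fun i => rfl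
  have hDC : ∀ i j, D i j ⊆ C i := by
    intro i j
    fin_cases j
    · exact Set.singleton_subset_iff.2 (hx i)
    · exact Set.singleton_subset_iff.2 (hy i)
    · exact hQC i
  have hDdisj : ∀ i j j', j ≠ j' → Disjoint (D i j) (D i j') := by
    intro i j j' hjj
    fin_cases j <;> fin_cases j' <;>
      first
        | exact absurd rfl hjj
        | exact Set.disjoint_singleton.2 (hxy i)
        | exact Set.disjoint_singleton.2 (hxy i).symm
        | exact Set.disjoint_singleton_left.2 (hxQ i)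
        | exact Set.disjoint_singleton_right.2 (hxQ i)
        | exact Set.disjoint_singleton_left.2 (hyQ i)
        | exact Set.disjoint_singleton_right.2 (hyQ i)
  have hDadj : ∀ i j j', j ≠ j' → ∃ u ∈ D i j, ∃ v ∈ D i j', G.Adj u v := by
    intro i j j' hjj
    obtain ⟨a, ha1, ha2⟩ := ha i
    obtain ⟨b, hb1, hb2⟩ := hb i
    fin_cases j <;> fin_cases j' <;>
      first
        | exact absurd rfl hjj
        | exact ⟨x i, rfl, y i, rfl, hadj i⟩
        | exact ⟨y i, rfl, x i, rfl, (hadj i).symm⟩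
        | exact ⟨x i, rfl, a, ha1, ha2⟩
        | exact ⟨a, ha1, x i, rfl, ha2.symm⟩
        | exact ⟨y i, rfl, b, hb1, hb2⟩
        | exact ⟨b, hb1, y i, rfl, hb2.symm⟩
  have hDconn : ∀ i j, (G.induce (D i j)).Connected := by
    intro i j
    fin_cases j
    · exact conn_singleton G (x i)
    · exact conn_singleton G (y i)
    · exact hQ i
  refine ⟨fun a => match a with | Sum.inl b => D b.1 b.2 | Sum.inr l => {f l}, ?_, ?_, ?_, ?_⟩
  · rintro (⟨i, j⟩ | l)
    · exact (hDC i j).trans ((hC1 i).trans hSR)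
    · exact Set.singleton_subset_iff.2 (hf2 l).1
  · rintro (⟨i, j⟩ | l)
    · exact hDconn i j
    · exact conn_singleton G _
  · rintro (⟨i, j⟩ | l) (⟨i', j'⟩ | l') hne
    · by_cases hii : i = i'
      · subst hii
        apply hDdisj
        rintro rfl
        exact hne rfl
      · exact (hC3 i i' hii).mono (hDC i j) (hDC i' j')
    · exact Set.disjoint_singleton_right.2 (fun h => (hf2 l').2 (hC1 i (hDC i j h)))
    · exact Set.disjoint_singleton_left.2 (fun h => (hf2 l).2 (hC1 i' (hDC i' j' h)))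
    · exact Set.disjoint_singleton.2 (fun h => hne (by rw [hf1 h]))
  · rintro (⟨i, j⟩ | l) (⟨i', j'⟩ | l') hadj
    · obtain ⟨h1, h2⟩ := hadj
      simp only at h1 h2
      subst h1
      exact hDadj i j j' h2
    · exact hadj.elim
    · exact hadj.elim
    · exact hadj.elim

lemma pack_of_minorIn [Finite V] {G : SimpleGraph V} {k m : ℕ} {R : Set V}
    (h : MinorIn (trianglesAndPoints k m) G R) :
    ∃ S ⊆ R, Pack G k S ∧ m ≤ (R \ S).ncard := by
  obtain ⟨B, h0, h1, h2, h3⟩ := h
  refine ⟨⋃ a : Fin k × Fin 3, B (Sum.inl a), Set.iUnion_subset fun a => h0 _, ?_, ?_⟩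
  · refine ⟨fun i => B (Sum.inl (i, 0)) ∪ B (Sum.inl (i, 1)) ∪ B (Sum.inl (i, 2)), ?_, ?_, ?_⟩
    · intro i
      refine Set.union_subset (Set.union_subset ?_ ?_) ?_
      · exact Set.subset_iUnion (fun a : Fin k × Fin 3 => B (Sum.inl a)) (i, 0)
      · exact Set.subset_iUnion (fun a : Fin k × Fin 3 => B (Sum.inl a)) (i, 1)
      · exact Set.subset_iUnion (fun a : Fin k × Fin 3 => B (Sum.inl a)) (i, 2)
    · intro i
      have hne : ∀ j j' : Fin 3, j ≠ j' → (Sum.inl (i, j) : (Fin k × Fin 3) ⊕ Fin m) ≠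
          Sum.inl (i, j') := by
        intro j j' hjj h
        simp only [Sum.inl.injEq, Prod.mk.injEq, true_and] at h
        exact hjj h
      exact nonAc_of_model (h1 _) (h1 _) (h1 _) (h2 _ _ (hne 0 1 (by decide)))
        (h2 _ _ (hne 0 2 (by decide))) (h2 _ _ (hne 1 2 (by decide)))
        (h3 _ _ ⟨rfl, (by decide : (0 : Fin 3) ≠ 1)⟩)
        (h3 _ _ ⟨rfl, (by decide : (0 : Fin 3) ≠ 2)⟩)
        (h3 _ _ ⟨rfl, (by decide : (1 : Fin 3) ≠ 2)⟩)
    · intro i i' hii
      have hne : ∀ j j' : Fin 3, (Sum.inl (i, j) : (Fin k × Fin 3) ⊕ Fin m) ≠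
          Sum.inl (i', j') := by
        intro j j' h
        simp only [Sum.inl.injEq, Prod.mk.injEq] at h
        exact hii h.1
      simp only [Set.disjoint_union_left, Set.disjoint_union_right]
      exact ⟨⟨⟨⟨h2 _ _ (hne 0 0), h2 _ _ (hne 1 0)⟩, h2 _ _ (hne 2 0)⟩,
        ⟨h2 _ _ (hne 0 1), h2 _ _ (hne 1 1)⟩, h2 _ _ (hne 2 1)⟩,
        ⟨h2 _ _ (hne 0 2), h2 _ _ (hne 1 2)⟩, h2 _ _ (hne 2 2)⟩
  · have hne : ∀ l : Fin m, (B (Sum.inr l)).Nonempty := fun l => by
      obtain ⟨⟨u, hu⟩⟩ := (h1 (Sum.inr l)).nonempty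
      exact ⟨u, hu⟩
    choose f hf using hne
    refine le_ncard_of_injection f ?_ ?_
    · intro l l' hll
      by_contra hcon
      refine Set.disjoint_left.1 (h2 (Sum.inr l) (Sum.inr l') (fun h => hcon (Sum.inr.inj h)))
        (hf l) ?_
      rw [hll]; exact hf l'
    · intro l
      refine ⟨h0 _ (hf l), ?_⟩
      simp only [Set.mem_iUnion, not_exists]
      intro a ha
      exact Set.disjoint_left.1 (h2 (Sum.inl a) (Sum.inr l) (fun h => by simp at h)) ha (hf l)

lemma isMinor_of_pack [Finite V] {G : SimpleGraph V} {k m : ℕ} {S : Set V} (h : Pack G k S)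
    (hm : m ≤ Sᶜ.ncard) : IsMinor (trianglesAndPoints k m) G := by
  refine (minorIn_of_pack (R := Set.univ) h (Set.subset_univ _) ?_).isMinor
  rw [← Set.compl_eq_univ_sdiff]; exact hm

lemma pack_of_isMinor [Finite V] {G : SimpleGraph V} {k m : ℕ}
    (h : IsMinor (trianglesAndPoints k m) G) : ∃ S, Pack G k S ∧ m ≤ Sᶜ.ncard := by
  obtain ⟨S, -, h1, h2⟩ := pack_of_minorIn ((minorIn_univ_iff _ _).2 h)
  rw [← Set.compl_eq_univ_sdiff] at h2
  exact ⟨S, h1, h2⟩

lemma isMinor_of_pendant {G : SimpleGraph V} {k m : ℕ} {v : Fin k × Fin 3}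
    (h : IsMinor (attachPendant (trianglesAndPoints k m) (Sum.inl v)) G) :
    IsMinor (trianglesAndPoints k (m + 1)) G := by
  refine IsMinor.of_hom (fun a : (Fin k × Fin 3) ⊕ Fin (m + 1) => match a with
    | Sum.inl b => some (Sum.inl b)
    | Sum.inr l => Fin.cases none (fun j => some (Sum.inr j)) l) ?_ ?_ h
  · rintro (a | a) (b | b) hab
    · simp only [Option.some.injEq, Sum.inl.injEq] at hab
      rw [hab]
    · refine Fin.cases (fun hab => ?_) (fun j hab => ?_) b hab
      · simp at hab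
      · simp at hab
    · refine Fin.cases (fun hab => ?_) (fun j hab => ?_) a hab
      · simp at hab
      · simp at hab
    · revert hab
      refine Fin.cases ?_ (fun i => ?_) a <;> refine Fin.cases ?_ (fun j => ?_) b
      · intro _; rfl
      · intro hab; simp at hab
      · intro hab; simp at hab
      · intro hab
        simp only [Fin.cases_succ, Option.some.injEq, Sum.inr.injEq] at hab
        rw [hab]
  · rintro (a | a) (b | b) hab
    · exact hab
    · exact hab.elim
    · exact hab.elim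
    · exact hab.elim

lemma pendant_of_isMinor [Finite V] {G : SimpleGraph V} (hG : G.Connected) {k m : ℕ}
    (v : Fin k × Fin 3) (h : IsMinor (trianglesAndPoints k (m + 1)) G) :
    IsMinor (attachPendant (trianglesAndPoints k m) (Sum.inl v)) G := by
  classical
  obtain ⟨B, h1, h2, h3⟩ := h
  set X : Set V := ⋃ a : Fin k × Fin 3, B (Sum.inl a) with hX
  have hsubX : ∀ a, B (Sum.inl a) ⊆ X := fun a =>
    Set.subset_iUnion (fun a : Fin k × Fin 3 => B (Sum.inl a)) a
  have hne : ∀ l : Fin (m + 1), (B (Sum.inr l)).Nonempty := fun l => by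
    obtain ⟨⟨u, hu⟩⟩ := (h1 (Sum.inr l)).nonempty
    exact ⟨u, hu⟩
  choose f hf using hne
  have hfX : ∀ l, f l ∈ Xᶜ := by
    intro l
    simp only [hX, Set.mem_compl_iff, Set.mem_iUnion, not_exists]
    intro a ha
    exact Set.disjoint_left.1 (h2 (Sum.inl a) (Sum.inr l) (fun h => by simp at h)) ha (hf l)
  have hcard : m + 1 ≤ Xᶜ.ncard := by
    refine le_ncard_of_injection f ?_ hfX
    intro l l' hll
    by_contra hcon
    refine Set.disjoint_left.1 (h2 (Sum.inr l) (Sum.inr l') (fun h => hcon (Sum.inr.inj h)))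
      (hf l) ?_
    rw [hll]; exact hf l'
  obtain ⟨⟨u0, hu0⟩⟩ := (h1 (Sum.inl v)).nonempty
  obtain ⟨p⟩ := hG.preconnected u0 (f 0)
  obtain ⟨d, -, hd1, hd2⟩ := p.exists_boundary_dart X (hsubX v hu0) (hfX 0)
  obtain ⟨⟨i, j⟩, hij⟩ := Set.mem_iUnion.1 hd1
  have hdadj := d.adj
  set u := d.fst
  set w := d.snd
  have hcard2 : m ≤ (Xᶜ \ {w}).ncard := by
    have := Set.ncard_sdiff_singleton_add_one (show w ∈ Xᶜ from hd2) (Set.toFinite _)
    omega
  obtain ⟨g, hg1, hg2⟩ := exists_injection hcard2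
  let σ : Fin k × Fin 3 → Fin k × Fin 3 :=
    fun a => (Equiv.swap v.1 i a.1, Equiv.swap v.2 j a.2)
  have hσ : Function.Injective σ := by
    rintro ⟨a, b⟩ ⟨c, d⟩ h
    simp only [σ, Prod.mk.injEq] at h
    rw [(Equiv.injective _) h.1, (Equiv.injective _) h.2]
  have hσv : σ v = (i, j) := by simp [σ]
  refine ⟨fun a => match a with
    | none => {w}
    | some (Sum.inl b) => B (Sum.inl (σ b))
    | some (Sum.inr l) => {g l}, ?_, ?_, ?_⟩
  · rintro (_ | (a | l))
    · exact conn_singleton G _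
    · exact h1 _
    · exact conn_singleton G _
  · rintro (_ | (a | l)) (_ | (a' | l')) hab
    · exact absurd rfl hab
    · exact Set.disjoint_singleton_left.2 (fun h => hd2 (hsubX _ h))
    · exact Set.disjoint_singleton.2 (fun h => (hg2 l').2 (by simpa using h.symm))
    · exact Set.disjoint_singleton_right.2 (fun h => hd2 (hsubX _ h))
    · refine h2 _ _ (fun h => hab ?_)
      rw [hσ (Sum.inl.inj h)]
    · exact Set.disjoint_singleton_right.2 (fun h => (hg2 l').1 (hsubX _ h))
    · exact Set.disjoint_singleton.2 (fun h => (hg2 l).2 (by simpa using h))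
    · exact Set.disjoint_singleton_left.2 (fun h => (hg2 l).1 (hsubX _ h))
    · exact Set.disjoint_singleton.2 (fun h => hab (by rw [hg1 h]))
  · rintro (_ | (a | l)) (_ | (a' | l')) hab
    · exact hab.elim
    · have hav : a' = v := Sum.inl.inj hab
      subst hav
      exact ⟨w, rfl, u, by show u ∈ B (Sum.inl (σ a')); rw [hσv]; exact hij, hdadj.symm⟩
    · exact absurd hab (by simp [attachPendant])
    · have hav : a = v := Sum.inl.inj hab
      subst hav
      exact ⟨u, by show u ∈ B (Sum.inl (σ a)); rw [hσv]; exact hij, w, rfl, hdadj⟩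
    · obtain ⟨h4, h5⟩ : a.1 = a'.1 ∧ a.2 ≠ a'.2 := hab
      refine h3 _ _ ⟨?_, ?_⟩
      · simp only [σ, h4]
      · simp only [σ]
        exact fun h => h5 ((Equiv.injective _) h)
    · exact hab.elim
    · exact absurd hab (by simp [attachPendant])
    · exact hab.elim
    · exact hab.elim

end Pool.Agent.Helper97.Pendant
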