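import Mathlib
import Pool.Agent.Helper97.Pendant.Convert

set_option autoImplicit false

namespace Pool.Agent.Helper97.Pendant

open SimpleGraph

variable {V W U : Type}

/-- Tree-decomposition of `G` restricted to `S` with bags of size at most `w + 1`. -/
def TD (G : SimpleGraph V) (S : Set V) (w : ℕ) : Prop :=
  ∃ (N : Type) (_ : Finite N) (T : SimpleGraph N) (bag : N → Set V), T.IsTree ∧
    (∀ i, bag i ⊆ S) ∧
    (∀ u ∈ S, ∀ v ∈ S, G.Adj u v → ∃ i, u ∈ bag i ∧ v ∈ bag i) ∧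
    (∀ v ∈ S, (T.induce {i | v ∈ bag i}).Connected) ∧
    ∀ i, (bag i).ncard ≤ w + 1

lemma td_iff {G : SimpleGraph V} {S : Set V} {w : ℕ} :
    HasTreeDecomposition (G.induce S) w ↔ TD G S w := by
  constructor
  · rintro ⟨N, hN, T, bag, hT, hv, he, hc, hw⟩
    refine ⟨N, hN, T, fun i => Subtype.val '' bag i, hT, ?_, ?_, ?_, ?_⟩
    · rintro i x ⟨y, -, rfl⟩; exact y.2
    · intro u hu v hv huv
      obtain ⟨i, h1, h2⟩ := he ⟨u, hu⟩ ⟨v, hv⟩ huv
      exact ⟨i, ⟨_, h1, rfl⟩, ⟨_, h2, rfl⟩⟩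
    · intro v hv
      have : {i | v ∈ Subtype.val '' bag i} = {i | (⟨v, hv⟩ : S) ∈ bag i} := by
        ext i
        simp only [Set.mem_ofPred_eq, Set.mem_image, Subtype.exists, exists_and_right,
          exists_eq_right]
        exact ⟨fun ⟨_, h⟩ => h, fun h => ⟨hv, h⟩⟩
      rw [this]
      exact hc _
    · intro i
      rw [Set.ncard_image_of_injective _ Subtype.val_injective]
      exact hw i
  · rintro ⟨N, hN, T, bag, hT, hs, he, hc, hw⟩
    refine ⟨N, hN, T, fun i => Subtype.val ⁻¹' bag i, hT, ?_, ?_, ?_, ?_⟩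
    · rintro ⟨v, hv⟩
      obtain ⟨⟨i, hi⟩⟩ := (hc v hv).nonempty
      exact ⟨i, hi⟩
    · rintro ⟨u, hu⟩ ⟨v, hv⟩ huv
      exact he u hu v hv huv
    · rintro ⟨v, hv⟩
      exact hc v hv
    · intro i
      rw [← Set.ncard_image_of_injective _ Subtype.val_injective, image_preimage_val (hs i)]
      exact hw i

lemma td_univ_iff {G : SimpleGraph V} {w : ℕ} : HasTreeDecomposition G w ↔ TD G Set.univ w := by
  constructor
  · rintro ⟨N, hN, T, bag, hT, hv, he, hc, hw⟩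
    exact ⟨N, hN, T, bag, hT, fun i => Set.subset_univ _, fun u _ v _ h => he u v h,
      fun v _ => hc v, hw⟩
  · rintro ⟨N, hN, T, bag, hT, hs, he, hc, hw⟩
    refine ⟨N, hN, T, bag, hT, ?_, fun u v h => he u trivial v trivial h, fun v => hc v trivial, hw⟩
    intro v
    obtain ⟨⟨i, hi⟩⟩ := (hc v trivial).nonempty
    exact ⟨i, hi⟩

lemma TD.mono_width {G : SimpleGraph V} {S : Set V} {w w' : ℕ} (h : TD G S w) (hw : w ≤ w') :
    TD G S w' := by
  obtain ⟨N, hN, T, bag, hT, hs, he, hc, hb⟩ := h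
  exact ⟨N, hN, T, bag, hT, hs, he, hc, fun i => (hb i).trans (by omega)⟩

lemma td_of_ncard_le (G : SimpleGraph V) {S : Set V} {w : ℕ} (h : S.ncard ≤ w + 1) :
    TD G S w := by
  refine ⟨Unit, inferInstance, ⊥, fun _ => S, IsTree.of_subsingleton, fun _ => subset_rfl,
    fun u hu v hv _ => ⟨(), hu, hv⟩, ?_, fun _ => h⟩
  intro v hv
  have : Nonempty {i : Unit | v ∈ S} := ⟨⟨(), hv⟩⟩
  exact Connected.of_subsingleton

lemma hasTreeDecomposition_mono {G : SimpleGraph V} {w w' : ℕ} (h : HasTreeDecomposition G w)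
    (hw : w ≤ w') : HasTreeDecomposition G w' := by
  rw [td_univ_iff] at h ⊢
  exact h.mono_width hw

lemma succ_le_treewidth_iff [Finite V] {G : SimpleGraph V} {n : ℕ} :
    n + 1 ≤ treewidth G ↔ ¬ HasTreeDecomposition G n := by
  have hne : {w | HasTreeDecomposition G w}.Nonempty := by
    refine ⟨(Set.univ : Set V).ncard, ?_⟩
    rw [Set.mem_ofPred_eq, td_univ_iff]
    exact td_of_ncard_le G (Nat.le_succ _)
  constructor
  · intro h hn
    have : treewidth G ≤ n := Nat.sInf_le hn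
    omega
  · intro h
    by_contra hcon
    push Not at hcon
    exact h (hasTreeDecomposition_mono (Nat.sInf_mem hne) (by unfold treewidth at hcon; omega))

lemma card_of_le_treewidth [Finite V] {G : SimpleGraph V} {n : ℕ} (h : n + 1 ≤ treewidth G) :
    n + 2 ≤ Nat.card V := by
  rw [succ_le_treewidth_iff, td_univ_iff] at h
  by_contra hcon
  apply h
  apply td_of_ncard_le
  rw [Set.ncard_univ]
  omega

lemma conn_image_hom {N M : Type} {T : SimpleGraph N} {T' : SimpleGraph M} (f : N → M)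
    (hf : ∀ a b, T.Adj a b → T'.Adj (f a) (f b)) {A : Set N} (hA : (T.induce A).Connected) :
    (T'.induce (f '' A)).Connected := by
  let φ : T.induce A →g T'.induce (f '' A) :=
    { toFun := fun a => ⟨f a, ⟨a, a.2, rfl⟩⟩
      map_rel' := fun {a b} h => hf a b h }
  refine hA.map φ ?_
  rintro ⟨_, ⟨a, ha, rfl⟩⟩
  exact ⟨⟨a, ha⟩, rfl⟩

lemma td_union [Finite V] {G : SimpleGraph V} {S Z : Set V} {w : ℕ} (h : TD G S w) :
    TD G (S ∪ Z) (w + Z.ncard) := by
  obtain ⟨N, hN, T, bag, hT, hs, he, hc, hb⟩ := h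
  have hne : Nonempty N := hT.connected.nonempty
  refine ⟨N, hN, T, fun i => bag i ∪ Z, hT, fun i => Set.union_subset_union_left _ (hs i), ?_, ?_,
    ?_⟩
  · have key : ∀ u ∈ S, ∃ i, u ∈ bag i := fun u hu => by
      obtain ⟨⟨i, hi⟩⟩ := (hc u hu).nonempty
      exact ⟨i, hi⟩
    intro u hu v hv huv
    by_cases huZ : u ∈ Z
    · by_cases hvZ : v ∈ Z
      · obtain ⟨i⟩ := hne
        exact ⟨i, Or.inr huZ, Or.inr hvZ⟩
      · obtain ⟨i, hi⟩ := key v (hv.resolve_right hvZ)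
        exact ⟨i, Or.inr huZ, Or.inl hi⟩
    · by_cases hvZ : v ∈ Z
      · obtain ⟨i, hi⟩ := key u (hu.resolve_right huZ)
        exact ⟨i, Or.inl hi, Or.inr hvZ⟩
      · obtain ⟨i, h1, h2⟩ := he u (hu.resolve_right huZ) v (hv.resolve_right hvZ) huv
        exact ⟨i, Or.inl h1, Or.inl h2⟩
  · intro v hv
    by_cases hvZ : v ∈ Z
    · have : {i | v ∈ bag i ∪ Z} = Set.univ := by
        ext i; simp [hvZ]
      rw [this]
      exact (induceUnivIso T).connected_iff.2 hT.connected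
    · have : {i | v ∈ bag i ∪ Z} = {i | v ∈ bag i} := by
        ext i; simp [hvZ]
      rw [this]
      exact hc v (hv.resolve_right hvZ)
  · intro i
    have h1 := Set.ncard_union_le (bag i) Z
    have h2 := hb i
    show (bag i ∪ Z).ncard ≤ _
    omega

lemma isTree_glue {N1 N2 : Type} [Finite N1] [Finite N2] {T1 : SimpleGraph N1}
    {T2 : SimpleGraph N2} (h1 : T1.IsTree) (h2 : T2.IsTree) (i1 : N1) (i2 : N2) :
    ((T1 ⊕g T2) ⊔ edge (Sum.inl i1) (Sum.inr i2)).IsTree := by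
  rw [isTree_iff_connected_and_card] at h1 h2 ⊢
  refine ⟨h1.1.sum_sup_edge h2.1, ?_⟩
  have e1 : ((T1 ⊕g T2) ⊔ edge (Sum.inl i1) (Sum.inr i2)).edgeSet =
      (T1 ⊕g T2).edgeSet ∪ {s(Sum.inl i1, Sum.inr i2)} := by
    ext e
    induction e with
    | _ a b =>
      simp only [mem_edgeSet, sup_adj, edge_adj, Set.mem_union, Set.mem_singleton_iff, Sym2.eq,
        Sym2.rel_iff', Prod.mk.injEq, Prod.swap_prod_mk]
      constructor
      · rintro (h | ⟨h, -⟩)
        · exact Or.inl h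
        · right; tauto
      · rintro (h | h)
        · exact Or.inl h
        · right
          rcases h with ⟨rfl, rfl⟩ | ⟨rfl, rfl⟩
          · simp
          · simp
  have e2 : Nat.card (T1 ⊕g T2).edgeSet = Nat.card T1.edgeSet + Nat.card T2.edgeSet := by
    rw [Nat.card_congr edgeSetSumEquiv, Nat.card_sum]
  have e3 : ((T1 ⊕g T2) ⊔ edge (Sum.inl i1) (Sum.inr i2)).edgeSet.ncard =
      (T1 ⊕g T2).edgeSet.ncard + 1 := by
    rw [e1, Set.union_singleton, Set.ncard_insert_of_notMem _ (Set.toFinite _)]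
    simp
  rw [Nat.card_coe_set_eq, e3, ← Nat.card_coe_set_eq, e2, Nat.card_sum]
  omega

/-- Gluing two tree-decompositions along a set contained in a bag of each. -/
lemma td_glue {G : SimpleGraph V} {S1 S2 : Set V} {w : ℕ} {N1 N2 : Type} [Finite N1]
    [Finite N2] {T1 : SimpleGraph N1} {T2 : SimpleGraph N2} {b1 : N1 → Set V} {b2 : N2 → Set V}
    (hT1 : T1.IsTree) (hT2 : T2.IsTree) (hs1 : ∀ i, b1 i ⊆ S1) (hs2 : ∀ i, b2 i ⊆ S2)
    (he1 : ∀ u ∈ S1, ∀ v ∈ S1, G.Adj u v → ∃ i, u ∈ b1 i ∧ v ∈ b1 i)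
    (he2 : ∀ u ∈ S2, ∀ v ∈ S2, G.Adj u v → ∃ i, u ∈ b2 i ∧ v ∈ b2 i)
    (hc1 : ∀ v ∈ S1, (T1.induce {i | v ∈ b1 i}).Connected)
    (hc2 : ∀ v ∈ S2, (T2.induce {i | v ∈ b2 i}).Connected)
    (hw1 : ∀ i, (b1 i).ncard ≤ w + 1) (hw2 : ∀ i, (b2 i).ncard ≤ w + 1)
    (i1 : N1) (i2 : N2) (hcap1 : S1 ∩ S2 ⊆ b1 i1) (hcap2 : S1 ∩ S2 ⊆ b2 i2)
    (hE : ∀ u v, u ∈ S1 ∪ S2 → v ∈ S1 ∪ S2 → G.Adj u v →
      (u ∈ S1 ∧ v ∈ S1) ∨ (u ∈ S2 ∧ v ∈ S2)) : TD G (S1 ∪ S2) w := by
  refine ⟨N1 ⊕ N2, inferInstance, (T1 ⊕g T2) ⊔ edge (Sum.inl i1) (Sum.inr i2),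
    fun i => match i with | Sum.inl a => b1 a | Sum.inr a => b2 a, isTree_glue hT1 hT2 i1 i2,
    ?_, ?_, ?_, ?_⟩
  · rintro (i | i)
    · exact (hs1 i).trans Set.subset_union_left
    · exact (hs2 i).trans Set.subset_union_right
  · intro u hu v hv huv
    rcases hE u v hu hv huv with ⟨h1, h2⟩ | ⟨h1, h2⟩
    · obtain ⟨i, h3, h4⟩ := he1 u h1 v h2 huv
      exact ⟨Sum.inl i, h3, h4⟩
    · obtain ⟨i, h3, h4⟩ := he2 u h1 v h2 huv
      exact ⟨Sum.inr i, h3, h4⟩
  · intro v hv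
    have hl : ∀ a b, T1.Adj a b →
        ((T1 ⊕g T2) ⊔ edge (Sum.inl i1) (Sum.inr i2)).Adj (Sum.inl a) (Sum.inl b) := by
      intro a b hab
      exact Or.inl hab
    have hr : ∀ a b, T2.Adj a b →
        ((T1 ⊕g T2) ⊔ edge (Sum.inl i1) (Sum.inr i2)).Adj (Sum.inr a) (Sum.inr b) := by
      intro a b hab
      exact Or.inl hab
    have hset : {i : N1 ⊕ N2 | v ∈ (match i with | Sum.inl a => b1 a | Sum.inr a => b2 a)} =
        Sum.inl '' {i | v ∈ b1 i} ∪ Sum.inr '' {i | v ∈ b2 i} := by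
      ext (i | i)
      · simp
      · simp
    rw [hset]
    by_cases h1 : v ∈ S1
    · have c1 := conn_image_hom (T' := (T1 ⊕g T2) ⊔ edge (Sum.inl i1) (Sum.inr i2)) Sum.inl hl
        (hc1 v h1)
      by_cases h2 : v ∈ S2
      · have c2 := conn_image_hom (T' := (T1 ⊕g T2) ⊔ edge (Sum.inl i1) (Sum.inr i2)) Sum.inr hr
          (hc2 v h2)
        refine connected_induce_union c1.preconnected c2.preconnected
          (v := Sum.inl i1) (w := Sum.inr i2) ⟨i1, hcap1 ⟨h1, h2⟩, rfl⟩ ⟨i2, hcap2 ⟨h1, h2⟩, rfl⟩ ?_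
        right
        simp [edge_adj]
      · have : Sum.inr '' {i | v ∈ b2 i} = (∅ : Set (N1 ⊕ N2)) := by
          rw [Set.image_eq_empty]
          ext i
          simp only [Set.mem_ofPred_eq, Set.mem_empty_iff_false, iff_false]
          exact fun h => h2 (hs2 i h)
        rw [this, Set.union_empty]
        exact c1
    · have h2 : v ∈ S2 := hv.resolve_left h1
      have c2 := conn_image_hom (T' := (T1 ⊕g T2) ⊔ edge (Sum.inl i1) (Sum.inr i2)) Sum.inr hr
          (hc2 v h2)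
      have : Sum.inl '' {i | v ∈ b1 i} = (∅ : Set (N1 ⊕ N2)) := by
        rw [Set.image_eq_empty]
        ext i
        simp only [Set.mem_ofPred_eq, Set.mem_empty_iff_false, iff_false]
        exact fun h => h1 (hs1 i h)
      rw [this, Set.empty_union]
      exact c2
  · rintro (i | i)
    · exact hw1 i
    · exact hw2 i

/-- Disjoint unions. -/
lemma td_disjoint {G : SimpleGraph V} {S1 S2 : Set V} {w : ℕ} (h1 : TD G S1 w) (h2 : TD G S2 w)
    (hd : Disjoint S1 S2) (hE : ∀ u ∈ S1, ∀ v ∈ S2, ¬ G.Adj u v) : TD G (S1 ∪ S2) w := by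
  obtain ⟨N1, hN1, T1, b1, hT1, hs1, he1, hc1, hw1⟩ := h1
  obtain ⟨N2, hN2, T2, b2, hT2, hs2, he2, hc2, hw2⟩ := h2
  obtain ⟨i1⟩ := hT1.connected.nonempty
  obtain ⟨i2⟩ := hT2.connected.nonempty
  have hcap : S1 ∩ S2 = ∅ := Set.disjoint_iff_inter_eq_empty.1 hd
  refine td_glue hT1 hT2 hs1 hs2 he1 he2 hc1 hc2 hw1 hw2 i1 i2
    (by rw [hcap]; exact Set.empty_subset (b1 i1)) (by rw [hcap]; exact Set.empty_subset (b2 i2)) ?_
  rintro u v (hu | hu) (hv | hv) huv
  · exact Or.inl ⟨hu, hv⟩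
  · exact absurd huv (hE u hu v hv)
  · exact absurd huv.symm (hE v hv u hu)
  · exact Or.inr ⟨hu, hv⟩

/-- A graph of large tree-width has a connected induced subgraph of large tree-width. -/
lemma exists_connected [Finite V] {G : SimpleGraph V} {n : ℕ} (h : ¬ TD G Set.univ n) :
    ∃ S : Set V, (G.induce S).Connected ∧ ¬ TD G S n := by
  obtain ⟨S, hS, hmin⟩ := Set.exists_min_image {S : Set V | ¬ TD G S n} (fun S => S.ncard)
    (Set.toFinite _) ⟨Set.univ, h⟩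
  refine ⟨S, ?_, hS⟩
  by_contra hcon
  have hne : S.Nonempty := by
    by_contra hemp
    rw [Set.not_nonempty_iff_eq_empty] at hemp
    apply hS
    rw [hemp]
    exact td_of_ncard_le G (by simp)
  have hpre : ¬ (G.induce S).Preconnected := by
    intro hp
    apply hcon
    have : Nonempty S := hne.to_subtype
    exact ⟨hp⟩
  unfold Preconnected at hpre
  push Not at hpre
  obtain ⟨⟨a, ha⟩, ⟨b, hb⟩, hab⟩ := hpre
  set A : Set V := {x | ∃ hx : x ∈ S, (G.induce S).Reachable ⟨a, ha⟩ ⟨x, hx⟩} with hA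
  have hAS : A ⊆ S := fun x hx => hx.1
  have haA : a ∈ A := ⟨ha, Reachable.refl _⟩
  have hbA : b ∉ A := fun h => hab h.2
  have h1 : TD G A n := by
    by_contra hcon1
    have h2 := hmin A hcon1
    have h3 : A.ncard < S.ncard :=
      Set.ncard_lt_ncard (Set.ssubset_iff_exists.2 ⟨hAS, b, hb, hbA⟩) (Set.toFinite _)
    omega
  have h2 : TD G (S \ A) n := by
    by_contra hcon1
    have h2 := hmin (S \ A) hcon1
    have h3 : (S \ A).ncard < S.ncard :=
      Set.ncard_lt_ncard (Set.ssubset_iff_exists.2 ⟨Set.sdiff_subset, a, ha, fun h => h.2 haA⟩)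
        (Set.toFinite _)
    omega
  apply hS
  have h3 := td_disjoint h1 h2 Set.disjoint_sdiff_right (by
    rintro u ⟨huS, hu⟩ v ⟨hv1, hv2⟩ huv
    apply hv2
    exact ⟨hv1, hu.trans (Adj.reachable (show (G.induce S).Adj ⟨u, huS⟩ ⟨v, hv1⟩ from huv))⟩)
  rwa [Set.union_sdiff_cancel hAS] at h3

end Pool.Agent.Helper97.Pendant
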