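import Mathlib
import Pool.Agent.Helper97.Pendant.TreeDec

set_option autoImplicit false

namespace Pool.Agent.Helper97.Pendant

open SimpleGraph

variable {V W U : Type}

/-- The set of ordered pairs of adjacent vertices of `S`. -/
def pairsIn (G : SimpleGraph V) (S : Set V) : Set (V × V) :=
  {p | p.1 ∈ S ∧ p.2 ∈ S ∧ G.Adj p.1 p.2}

lemma pairsIn_remove [Finite V] (G : SimpleGraph V) (S : Set V) (v : V) :
    (pairsIn G S).ncard ≤ (pairsIn G (S \ {v})).ncard + 2 * (G.neighborSet v ∩ S).ncard := by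
  have h1 : pairsIn G S ⊆ pairsIn G (S \ {v}) ∪ ((fun w => (v, w)) '' (G.neighborSet v ∩ S) ∪
      (fun w => (w, v)) '' (G.neighborSet v ∩ S)) := by
    rintro ⟨a, b⟩ ⟨ha, hb, hab⟩
    simp only at ha hb hab
    by_cases hav : a = v
    · subst hav
      right; left; exact ⟨b, ⟨hab, hb⟩, rfl⟩
    · by_cases hbv : b = v
      · subst hbv
        right; right; exact ⟨a, ⟨hab.symm, ha⟩, rfl⟩
      · left; exact ⟨⟨ha, hav⟩, ⟨hb, hbv⟩, hab⟩
  have h2 := Set.ncard_le_ncard h1 (Set.toFinite _)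
  have h3 := Set.ncard_union_le (pairsIn G (S \ {v})) ((fun w => (v, w)) '' (G.neighborSet v ∩ S) ∪
      (fun w => (w, v)) '' (G.neighborSet v ∩ S))
  have h4 := Set.ncard_union_le ((fun w => (v, w)) '' (G.neighborSet v ∩ S))
    ((fun w => (w, v)) '' (G.neighborSet v ∩ S))
  have h5 := Set.ncard_image_le (f := fun w => (v, w)) (Set.toFinite (G.neighborSet v ∩ S))
  have h6 := Set.ncard_image_le (f := fun w => (w, v)) (Set.toFinite (G.neighborSet v ∩ S))
  omega

/-- A set with many edges contains a subset of large minimum degree. -/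
lemma exists_minDegree_subset [Finite V] (G : SimpleGraph V) {d : ℕ} {S : Set V}
    (hS : S.Nonempty) (h : 2 * d * S.ncard ≤ (pairsIn G S).ncard) :
    ∃ T ⊆ S, T.Nonempty ∧ ∀ v ∈ T, d ≤ (G.neighborSet v ∩ T).ncard := by
  obtain ⟨T, ⟨hTS, hTne, hT⟩, hmin⟩ := Set.exists_min_image
    {T : Set V | T ⊆ S ∧ T.Nonempty ∧ 2 * d * T.ncard ≤ (pairsIn G T).ncard}
    (fun T => T.ncard) (Set.toFinite _) ⟨S, subset_rfl, hS, h⟩
  refine ⟨T, hTS, hTne, ?_⟩
  intro v hv
  by_contra hcon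
  push Not at hcon
  have h1 := pairsIn_remove G T v
  have h2 : (T \ {v}).ncard + 1 = T.ncard := Set.ncard_sdiff_singleton_add_one hv (Set.toFinite _)
  have h3 : 2 * d * (T \ {v}).ncard + 2 * d = 2 * d * T.ncard := by rw [← h2]; ring
  have h4 : 2 * d * (T \ {v}).ncard < (pairsIn G (T \ {v})).ncard := by omega
  have h5 : (T \ {v}).Nonempty := by
    by_contra hemp
    rw [Set.not_nonempty_iff_eq_empty] at hemp
    rw [hemp] at h4
    have : pairsIn G (∅ : Set V) = ∅ := by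
      ext p; simp [pairsIn]
    rw [this] at h4
    simp at h4
  have h6 := hmin (T \ {v}) ⟨Set.sdiff_subset.trans hTS, h5, h4.le⟩
  omega

lemma pack_of_pairs [Finite V] (G : SimpleGraph V) {k : ℕ} {S : Set V}
    (hS : S.Nonempty) (h : 6 * k * S.ncard ≤ (pairsIn G S).ncard) : Pack G k S := by
  obtain ⟨T, hTS, hT, hdeg⟩ := exists_minDegree_subset G (d := 3 * k) hS
    (by rw [← mul_assoc]; exact h)
  exact (pack_of_minDegree G k T hT hdeg).mono hTS

lemma pairsIn_univ_ge [Finite V] (G : SimpleGraph V) {d : ℕ} {S : Set V}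
    (h : ∀ v ∈ S, d ≤ (G.neighborSet v ∩ S).ncard) : d * S.ncard ≤ (pairsIn G S).ncard := by
  classical
  have : ∀ v : S, ∃ f : Fin d → V, Function.Injective f ∧ ∀ i, f i ∈ G.neighborSet v ∩ S :=
    fun v => exists_injection (h v v.2)
  choose f hf1 hf2 using this
  have h1 : Function.Injective (fun p : Fin d × S => ((p.2 : V), f p.2 p.1)) := by
    rintro ⟨i, v⟩ ⟨j, w⟩ hp
    simp only [Prod.mk.injEq] at hp
    obtain ⟨h1, h2⟩ := hp
    have h3 : v = w := Subtype.ext h1
    subst h3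
    rw [hf1 v h2]
  have h2 : Set.range (fun p : Fin d × S => ((p.2 : V), f p.2 p.1)) ⊆ pairsIn G S := by
    rintro _ ⟨⟨i, v⟩, rfl⟩
    exact ⟨v.2, (hf2 v i).2, (hf2 v i).1⟩
  have h3 := Set.ncard_le_ncard h2 (Set.toFinite _)
  have h4 : (Set.range (fun p : Fin d × S => ((p.2 : V), f p.2 p.1))).ncard = d * S.ncard := by
    rw [← Set.image_univ, Set.ncard_image_of_injective _ h1, Set.ncard_univ, Nat.card_prod,
      Nat.card_eq_fintype_card, Fintype.card_fin, Nat.card_coe_set_eq]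
  omega

end Pool.Agent.Helper97.Pendant
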