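import Mathlib
import Pool.Agent.Helper97.Pendant.Defs

set_option autoImplicit false

namespace Pool.Agent.Helper97.Pendant

open SimpleGraph

/-- Positions of the vertices of the drawing. -/
noncomputable def position (k m : ℕ) : (Fin k × Fin 3) ⊕ Fin m → ℝ × ℝ
  | Sum.inl a => (3 * (a.1 : ℕ) + (if a.2 = 1 then 1 else 0), if a.2 = 2 then 1 else 0)
  | Sum.inr j => (-1 - (j : ℕ), 0)

lemma mem_segment_coords {A B z : ℝ × ℝ} (h : z ∈ segment ℝ A B) :
    ∃ a b : ℝ, 0 ≤ a ∧ 0 ≤ b ∧ a + b = 1 ∧ z.1 = a * A.1 + b * B.1 ∧ z.2 = a * A.2 + b * B.2 := by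
  obtain ⟨a, b, ha, hb, hab, hz⟩ := h
  exact ⟨a, b, ha, hb, hab, by rw [← hz]; simp, by rw [← hz]; simp⟩

lemma position_range (k m : ℕ) (a : Fin k × Fin 3) :
    3 * ((a.1 : ℕ) : ℝ) ≤ (position k m (Sum.inl a)).1 ∧
      (position k m (Sum.inl a)).1 ≤ 3 * ((a.1 : ℕ) : ℝ) + 1 := by
  unfold position
  simp only
  split_ifs <;> constructor <;> linarith

lemma segment_range {k m : ℕ} {a b : Fin k × Fin 3} (hab : a.1 = b.1) {z : ℝ × ℝ}
    (hz : z ∈ segment ℝ (position k m (Sum.inl a)) (position k m (Sum.inl b))) :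
    3 * ((a.1 : ℕ) : ℝ) ≤ z.1 ∧ z.1 ≤ 3 * ((a.1 : ℕ) : ℝ) + 1 := by
  obtain ⟨s, t, hs, ht, hst, h1, -⟩ := mem_segment_coords hz
  obtain ⟨h2, h3⟩ := position_range k m a
  obtain ⟨h4, h5⟩ := position_range k m b
  rw [← hab] at h4 h5
  rw [h1]
  constructor
  · nlinarith
  · nlinarith

lemma range_disjoint {i j : ℕ} {x : ℝ} (h1 : 3 * (i : ℝ) ≤ x) (h2 : x ≤ 3 * (i : ℝ) + 1)
    (h3 : 3 * (j : ℝ) ≤ x) (h4 : x ≤ 3 * (j : ℝ) + 1) : i = j := by
  have h5 : (3 * i : ℝ) ≤ 3 * j + 1 := by linarith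
  have h6 : (3 * j : ℝ) ≤ 3 * i + 1 := by linarith
  have h7 : 3 * i ≤ 3 * j + 1 := by exact_mod_cast h5
  have h8 : 3 * j ≤ 3 * i + 1 := by exact_mod_cast h6
  omega

theorem hasPlaneDrawing (k m : ℕ) : HasPlaneDrawing (trianglesAndPoints k m) := by
  refine ⟨position k m, ?_, ?_, ?_⟩
  · rintro (a | a) (b | b) h
    · obtain ⟨h1, h2⟩ := position_range k m a
      obtain ⟨h3, h4⟩ := position_range k m b
      rw [← h] at h3 h4
      have h5 := range_disjoint h1 h2 h3 h4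
      obtain ⟨a1, a2⟩ := a
      obtain ⟨b1, b2⟩ := b
      simp only at h5
      have h6 : a1 = b1 := Fin.ext h5
      subst h6
      simp only [position, Prod.mk.injEq] at h
      obtain ⟨e1, e2⟩ := h
      have : a2 = b2 := by
        fin_cases a2 <;> fin_cases b2 <;> simp_all
      rw [this]
    · exfalso
      obtain ⟨h1, h2⟩ := position_range k m a
      rw [h] at h1
      simp only [position] at h1
      have : (0 : ℝ) ≤ ((b : ℕ) : ℝ) := Nat.cast_nonneg _
      have : (0 : ℝ) ≤ ((a.1 : ℕ) : ℝ) := Nat.cast_nonneg _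
      linarith
    · exfalso
      obtain ⟨h1, h2⟩ := position_range k m b
      rw [← h] at h1
      simp only [position] at h1
      have : (0 : ℝ) ≤ ((a : ℕ) : ℝ) := Nat.cast_nonneg _
      have : (0 : ℝ) ≤ ((b.1 : ℕ) : ℝ) := Nat.cast_nonneg _
      linarith
    · simp only [position, Prod.mk.injEq] at h
      have h1 : ((a : ℕ) : ℝ) = ((b : ℕ) : ℝ) := by linarith [h.1]
      have h2 : (a : ℕ) = b := by exact_mod_cast h1
      rw [Fin.ext h2]
  · rintro (⟨i, a⟩ | a) (⟨j, b⟩ | b) (⟨l, c⟩ | c) hab hca hcb hz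
    · obtain ⟨hij, hab'⟩ : i = j ∧ a ≠ b := hab
      subst hij
      obtain ⟨h1, h2⟩ := segment_range (a := (i, a)) (b := (i, b)) rfl hz
      obtain ⟨h3, h4⟩ := position_range k m (l, c)
      have h5 : (i : ℕ) = l := range_disjoint h1 h2 h3 h4
      have h6 : i = l := Fin.ext h5
      subst h6
      have hca' : c ≠ a := fun h => hca (by rw [h])
      have hcb' : c ≠ b := fun h => hcb (by rw [h])
      obtain ⟨s, t, hs, ht, hst, e1, e2⟩ := mem_segment_coords hz
      simp only [position] at e1 e2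
      have e3 : (if c = 1 then (1 : ℝ) else 0) =
          s * (if a = 1 then 1 else 0) + t * (if b = 1 then 1 else 0) := by
        linear_combination e1 + 3 * ((i : ℕ) : ℝ) * hst
      clear e1 h1 h2 h3 h4 h5 hz hcb hca hs ht
      fin_cases a <;> fin_cases b <;> fin_cases c <;> simp at hca' hcb' hab' e2 e3 <;> linarith
    · obtain ⟨hij, hab'⟩ : i = j ∧ a ≠ b := hab
      subst hij
      obtain ⟨h1, h2⟩ := segment_range (a := (i, a)) (b := (i, b)) rfl hz
      simp only [position] at h1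
      have : (0 : ℝ) ≤ ((c : ℕ) : ℝ) := Nat.cast_nonneg _
      have : (0 : ℝ) ≤ ((i : ℕ) : ℝ) := Nat.cast_nonneg _
      linarith
    all_goals exact hab.elim
  · rintro (⟨i, a⟩ | a) (⟨j, b⟩ | b) (⟨l, c⟩ | c) (⟨l', d⟩ | d) hab hcd hac had hbc hbd
    · obtain ⟨hij, hab'⟩ : i = j ∧ a ≠ b := hab
      obtain ⟨hll, hcd'⟩ : l = l' ∧ c ≠ d := hcd
      subst hij
      subst hll
      rw [Set.disjoint_left]
      intro z hz1 hz2
      obtain ⟨h1, h2⟩ := segment_range (a := (i, a)) (b := (i, b)) rfl hz1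
      obtain ⟨h3, h4⟩ := segment_range (a := (l, c)) (b := (l, d)) rfl hz2
      have h5 : (i : ℕ) = l := range_disjoint h1 h2 h3 h4
      have h6 : i = l := Fin.ext h5
      subst h6
      have n1 : a ≠ c := fun h => hac (by rw [h])
      have n2 : a ≠ d := fun h => had (by rw [h])
      have n3 : b ≠ c := fun h => hbc (by rw [h])
      have n4 : b ≠ d := fun h => hbd (by rw [h])
      omega
    all_goals first | exact hab.elim | exact hcd.elim

end Pool.Agent.Helper97.Pendant
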