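import Mathlib
import Pool.Agent.Helper97.Pendant.Density

set_option autoImplicit false

namespace Pool.Agent.Helper97.Pendant

open SimpleGraph

variable {V W U : Type}

/-- Iterated closed neighbourhoods. -/
def reach (G : SimpleGraph V) (A : Set V) : ℕ → Set V
  | 0 => A
  | (i + 1) => reach G A i ∪ {v | ∃ u ∈ reach G A i, G.Adj u v}

lemma reach_succ (G : SimpleGraph V) (A : Set V) (i : ℕ) :
    reach G A (i + 1) = reach G A i ∪ {v | ∃ u ∈ reach G A i, G.Adj u v} := rfl

lemma reach_subset_succ (G : SimpleGraph V) (A : Set V) (i : ℕ) :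
    reach G A i ⊆ reach G A (i + 1) := Set.subset_union_left

lemma reach_mono_nat (G : SimpleGraph V) (A : Set V) {i j : ℕ} (h : i ≤ j) :
    reach G A i ⊆ reach G A j := by
  induction h with
  | refl => exact subset_rfl
  | step _ ih => exact ih.trans (reach_subset_succ G A _)

lemma reach_mono_set (G : SimpleGraph V) {A B : Set V} (h : A ⊆ B) (i : ℕ) :
    reach G A i ⊆ reach G B i := by
  induction i with
  | zero => exact h
  | succ i ih =>
    rw [reach_succ, reach_succ]
    refine Set.union_subset_union ih ?_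
    rintro v ⟨u, hu, huv⟩
    exact ⟨u, ih hu, huv⟩

lemma reach_add (G : SimpleGraph V) (A : Set V) (i j : ℕ) :
    reach G (reach G A i) j = reach G A (i + j) := by
  induction j with
  | zero => rfl
  | succ j ih => rw [reach_succ, ih, ← Nat.add_assoc, reach_succ]

lemma mem_reach_symm (G : SimpleGraph V) {u v : V} {i : ℕ} (h : v ∈ reach G {u} i) :
    u ∈ reach G {v} i := by
  induction i generalizing v with
  | zero =>
    have : v = u := h
    subst this
    exact h
  | succ i ih =>
    rcases h with h | ⟨w, hw, hwv⟩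
    · exact reach_subset_succ G _ _ (ih h)
    · have h1 := ih hw
      have h2 : ({w} : Set V) ⊆ reach G {v} 1 := by
        rw [Set.singleton_subset_iff]
        right
        exact ⟨v, rfl, hwv.symm⟩
      have h3 := reach_mono_set G h2 i h1
      rw [reach_add, Nat.add_comm] at h3
      exact h3

lemma exists_mem_reach (G : SimpleGraph V) {A : Set V} {v : V} {i : ℕ} (h : v ∈ reach G A i) :
    ∃ a ∈ A, v ∈ reach G {a} i := by
  induction i generalizing v with
  | zero => exact ⟨v, h, rfl⟩
  | succ i ih =>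
    rcases h with h | ⟨w, hw, hwv⟩
    · obtain ⟨a, ha, h1⟩ := ih h
      exact ⟨a, ha, reach_subset_succ G _ _ h1⟩
    · obtain ⟨a, ha, h1⟩ := ih hw
      exact ⟨a, ha, Or.inr ⟨w, h1, hwv⟩⟩

lemma self_mem_reach (G : SimpleGraph V) {A : Set V} {v : V} (hv : v ∈ A) (i : ℕ) :
    v ∈ reach G A i := reach_mono_nat G A (Nat.zero_le i) hv

lemma ncard_reach_ge [Finite V] {G : SimpleGraph V} {l : ℕ}
    (hdeg : ∀ v, 3 ≤ (G.neighborSet v).ncard) (hgirth : ∀ S, NonAc G S → l < S.ncard)
    {A : Set V} (hA : A.Nonempty) {i : ℕ} (hi : i ≤ l) : i + 1 ≤ (reach G A i).ncard := by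
  induction i with
  | zero =>
    have : 0 < A.ncard := (Set.ncard_pos (Set.toFinite _)).2 hA
    show 0 + 1 ≤ A.ncard
    omega
  | succ i ih =>
    have ih' := ih (by omega)
    by_cases hcl : reach G A (i + 1) ⊆ reach G A i
    · have h1 : NonAc G (reach G A i) := by
        refine nonAc_of_two_le (hA.mono (reach_mono_nat G A (Nat.zero_le i))) ?_
        intro v hv
        have h2 : G.neighborSet v ∩ reach G A i = G.neighborSet v := by
          refine Set.inter_eq_left.2 ?_
          intro w hw
          exact hcl (Or.inr ⟨v, hv, hw⟩)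
        rw [h2]
        have := hdeg v
        omega
      have h3 := hgirth _ h1
      have h4 := Set.ncard_le_ncard (reach_subset_succ G A i) (Set.toFinite _)
      omega
    · have h5 : (reach G A i).ncard < (reach G A (i + 1)).ncard := by
        refine Set.ncard_lt_ncard ?_ (Set.toFinite _)
        exact ⟨reach_subset_succ G A i, hcl⟩
      omega

/-- A breadth-first forest of bounded depth grown from far apart roots. -/
lemma exists_forest [Finite V] (G : SimpleGraph V) (r : ℕ) :
    ∃ (Z : Set V) (par : V → V) (lev : V → ℕ), (∀ v, lev v ≤ 2 * r) ∧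
      (∀ v, lev v = 0 ↔ v ∈ Z) ∧ (∀ v, v ∈ reach G Z (lev v)) ∧
      (∀ v, lev v ≠ 0 → G.Adj (par v) v ∧ lev (par v) + 1 = lev v) ∧
      (∀ z ∈ Z, ∀ z' ∈ Z, z ≠ z' → Disjoint (reach G {z} r) (reach G {z'} r)) := by
  classical
  obtain ⟨Z, hZ, hmax⟩ := Set.exists_max_image
    {Z : Set V | ∀ z ∈ Z, ∀ z' ∈ Z, z ≠ z' → Disjoint (reach G {z} r) (reach G {z'} r)}
    (fun Z => Z.ncard) (Set.toFinite _) ⟨∅, fun z hz => hz.elim⟩
  have hcover : ∀ v, v ∈ reach G Z (2 * r) := by
    intro v
    by_cases hv : v ∈ Z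
    · exact self_mem_reach G hv _
    · have h1 : ∃ z ∈ Z, ¬ Disjoint (reach G {v} r) (reach G {z} r) := by
        by_contra hcon
        push Not at hcon
        have h2 := hmax (insert v Z) (by
          rintro z (rfl | hz) z' (rfl | hz') hne
          · exact absurd rfl hne
          · exact hcon z' hz'
          · exact (hcon z hz).symm
          · exact hZ z hz z' hz' hne)
        rw [Set.ncard_insert_of_notMem hv (Set.toFinite _)] at h2
        omega
      obtain ⟨z, hz, hd⟩ := h1
      rw [Set.not_disjoint_iff] at hd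
      obtain ⟨w, hw1, hw2⟩ := hd
      have h3 := mem_reach_symm G hw1
      have h4 : ({w} : Set V) ⊆ reach G Z r := by
        rw [Set.singleton_subset_iff]
        exact reach_mono_set G (Set.singleton_subset_iff.2 hz) r hw2
      have h5 := reach_mono_set G h4 r h3
      rw [reach_add, ← two_mul] at h5
      exact h5
  have hex : ∀ v, ∃ i, v ∈ reach G Z i := fun v => ⟨_, hcover v⟩
  have hpar : ∀ v, ∃ u, Nat.find (hex v) ≠ 0 →
      (G.Adj u v ∧ Nat.find (hex u) + 1 = Nat.find (hex v)) := by
    intro v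
    by_cases h0 : Nat.find (hex v) = 0
    · exact ⟨v, fun h => absurd h0 h⟩
    · obtain ⟨i, hi⟩ := Nat.exists_eq_succ_of_ne_zero h0
      have h1 := Nat.find_spec (hex v)
      rw [hi] at h1
      rcases h1 with h1 | ⟨u, hu, huv⟩
      · exact absurd h1 (Nat.find_min (hex v) (by omega))
      · refine ⟨u, fun _ => ⟨huv, ?_⟩⟩
        have h2 : Nat.find (hex u) ≤ i := Nat.find_min' _ hu
        have h3 : ¬ Nat.find (hex u) < i := by
          intro h3
          have h4 : v ∈ reach G Z (Nat.find (hex u) + 1) :=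
            Or.inr ⟨u, Nat.find_spec (hex u), huv⟩
          exact Nat.find_min (hex v) (show Nat.find (hex u) + 1 < Nat.find (hex v) by omega) h4
        omega
  choose par hpar using hpar
  refine ⟨Z, par, fun v => Nat.find (hex v), fun v => Nat.find_min' _ (hcover v), ?_,
    fun v => Nat.find_spec (hex v), hpar, hZ⟩
  intro v
  rw [Nat.find_eq_zero]
  rfl

section Forest

variable {G : SimpleGraph V} {par : V → V} {lev : V → ℕ}

/-- The root of the tree containing `v`. -/
def rt (par : V → V) (lev : V → ℕ) (v : V) : V := par^[lev v] v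

/-- The vertices on the path from `v` to its root. -/
def chain (par : V → V) (lev : V → ℕ) (v : V) : Set V := {w | ∃ j ≤ lev v, par^[j] v = w}

lemma lev_induction (hp : ∀ v, lev v ≠ 0 → lev (par v) + 1 = lev v) {P : V → Prop}
    (h0 : ∀ v, lev v = 0 → P v) (h1 : ∀ v, lev v ≠ 0 → P (par v) → P v) (v : V) : P v := by
  have key : ∀ n, ∀ v, lev v = n → P v := by
    intro n
    induction n with
    | zero => exact h0
    | succ n ih =>
      intro v hv
      have h2 : lev v ≠ 0 := by omega
      have h3 := hp v h2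
      exact h1 v h2 (ih _ (by omega))
  exact key _ v rfl

lemma rt_zero {v : V} (h : lev v = 0) : rt par lev v = v := by
  unfold rt; rw [h]; rfl

lemma rt_par (hp : ∀ v, lev v ≠ 0 → lev (par v) + 1 = lev v) {v : V} (h : lev v ≠ 0) :
    rt par lev (par v) = rt par lev v := by
  unfold rt
  rw [← hp v h, Function.iterate_succ_apply]

lemma chain_zero {v : V} (h : lev v = 0) : chain par lev v = {v} := by
  ext w
  unfold chain
  rw [h]
  simp only [Nat.le_zero_eq, exists_eq_left, Function.iterate_zero, id_eq, Set.mem_ofPred_eq,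
    Set.mem_singleton_iff]
  exact eq_comm

lemma chain_par (hp : ∀ v, lev v ≠ 0 → lev (par v) + 1 = lev v) {v : V} (h : lev v ≠ 0) :
    chain par lev v = insert v (chain par lev (par v)) := by
  have h1 := hp v h
  ext w
  constructor
  · rintro ⟨j, hj, rfl⟩
    cases j with
    | zero => left; rfl
    | succ j =>
      right
      exact ⟨j, by omega, by rw [← Function.iterate_succ_apply]⟩
  · rintro (rfl | ⟨j, hj, rfl⟩)
    · exact ⟨0, Nat.zero_le _, rfl⟩
    · exact ⟨j + 1, by omega, by rw [Function.iterate_succ_apply]⟩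

lemma self_mem_chain (v : V) : v ∈ chain par lev v := ⟨0, Nat.zero_le _, rfl⟩

lemma rt_mem_chain (v : V) : rt par lev v ∈ chain par lev v := ⟨lev v, le_rfl, rfl⟩

lemma ncard_chain_le (hp : ∀ v, lev v ≠ 0 → lev (par v) + 1 = lev v) (v : V) :
    (chain par lev v).ncard ≤ lev v + 1 := by
  refine lev_induction (P := fun v => (chain par lev v).ncard ≤ lev v + 1) hp (fun v h => ?_) (fun v h ih => ?_) v
  · rw [chain_zero h, Set.ncard_singleton]; omega
  · rw [chain_par hp h]
    have h1 := Set.ncard_insert_le v (chain par lev (par v))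
    have h2 := hp v h
    omega

lemma rt_of_mem_chain (hp : ∀ v, lev v ≠ 0 → lev (par v) + 1 = lev v) (v : V) :
    ∀ w ∈ chain par lev v, rt par lev w = rt par lev v := by
  refine lev_induction (P := fun v => ∀ w ∈ chain par lev v, rt par lev w = rt par lev v)
    hp (fun v h => ?_) (fun v h ih => ?_) v
  · intro w hw
    rw [chain_zero h] at hw
    rw [hw]
  · intro w hw
    rw [chain_par hp h] at hw
    rcases hw with rfl | hw
    · rfl
    · rw [ih w hw, rt_par hp h]

lemma conn_chain {G' : SimpleGraph V} (hp : ∀ v, lev v ≠ 0 → lev (par v) + 1 = lev v)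
    (hG' : ∀ v, lev v ≠ 0 → G'.Adj (par v) v) (v : V) :
    (G'.induce (chain par lev v)).Connected := by
  refine lev_induction (P := fun v => (G'.induce (chain par lev v)).Connected) hp (fun v h => ?_) (fun v h ih => ?_) v
  · rw [chain_zero h]; exact conn_singleton G' v
  · rw [chain_par hp h, Set.insert_eq]
    exact connected_induce_union (conn_singleton G' v).preconnected ih.preconnected rfl
      (self_mem_chain _) (hG' v h).symm

lemma mem_reach_rt (hp : ∀ v, lev v ≠ 0 → lev (par v) + 1 = lev v)
    (hG : ∀ v, lev v ≠ 0 → G.Adj (par v) v) (v : V) :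
    v ∈ reach G {rt par lev v} (lev v) := by
  refine lev_induction (P := fun v => v ∈ reach G {rt par lev v} (lev v)) hp (fun v h => ?_) (fun v h ih => ?_) v
  · rw [rt_zero h]; exact self_mem_reach G (Set.mem_singleton v) _
  · rw [rt_par hp h] at ih
    rw [← hp v h]
    exact Or.inr ⟨par v, ih, hG v h⟩

lemma rt_mem (hp : ∀ v, lev v ≠ 0 → lev (par v) + 1 = lev v) {Z : Set V}
    (hZ : ∀ v, lev v = 0 ↔ v ∈ Z) (v : V) : rt par lev v ∈ Z := by
  refine lev_induction (P := fun v => rt par lev v ∈ Z) hp (fun v h => ?_) (fun v h ih => ?_) v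
  · rw [rt_zero h]; exact (hZ v).1 h
  · rwa [rt_par hp h] at ih

end Forest

/-- Minimum degree three and large girth force `k` disjoint cycles. -/
theorem isMinor_of_girth {k : ℕ} [Finite V] [Nonempty V] (G : SimpleGraph V)
    (hdeg : ∀ v, 3 ≤ (G.neighborSet v).ncard)
    (hgirth : ∀ S, NonAc G S → 8 * (6 * k) + 4 < S.ncard) :
    IsMinor (trianglesAndPoints k 0) G := by
  classical
  obtain ⟨Z, par, lev, hlev, hZ, hreach, hpar, hsep⟩ := exists_forest G (6 * k)
  have hp : ∀ v, lev v ≠ 0 → lev (par v) + 1 = lev v := fun v h => (hpar v h).2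
  have hadj : ∀ v, lev v ≠ 0 → G.Adj (par v) v := fun v h => (hpar v h).1
  set root := rt par lev with hroot
  have hrootZ : ∀ v, root v ∈ Z := rt_mem hp hZ
  have hchain : ∀ v, (chain par lev v).ncard ≤ 2 * (6 * k) + 1 := fun v =>
    (ncard_chain_le hp v).trans (by have := hlev v; omega)
  set Tr : V → V → Prop := fun u v => (lev u ≠ 0 ∧ par u = v) ∨ (lev v ≠ 0 ∧ par v = u) with hTr
  -- deleting a non-tree edge
  have hdel : ∀ u v, ¬ Tr u v → ∀ w, lev w ≠ 0 → (G.deleteEdges {s(u, v)}).Adj (par w) w := by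
    intro u v huv w hw
    rw [deleteEdges_adj]
    refine ⟨hadj w hw, ?_⟩
    simp only [Set.mem_singleton_iff, Sym2.eq, Sym2.rel_iff', Prod.mk.injEq, Prod.swap_prod_mk]
    rintro (⟨h1, rfl⟩ | ⟨h1, rfl⟩)
    · exact huv (Or.inr ⟨hw, h1⟩)
    · exact huv (Or.inl ⟨hw, h1⟩)
  have hi : ∀ u v, G.Adj u v → ¬ Tr u v → root u ≠ root v := by
    intro u v huv hT hr
    have h1 := conn_chain hp (hdel u v hT) u
    have h2 := conn_chain hp (hdel u v hT) v
    have h3 := induce_union_connected h1.preconnected h2.preconnected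
      ⟨root u, rt_mem_chain u, by rw [hr]; exact rt_mem_chain v⟩
    have h4 := nonAc_of_deleteEdge huv (Or.inl (self_mem_chain u)) (Or.inr (self_mem_chain v))
      h3.preconnected
    have h5 := hgirth _ h4
    have h6 := Set.ncard_union_le (chain par lev u) (chain par lev v)
    have h7 := hchain u
    have h8 := hchain v
    omega
  have hii : ∀ u v u' v', G.Adj u v → ¬ Tr u v → G.Adj u' v' → ¬ Tr u' v' →
      root u = root u' → root v = root v' → (u, v) = (u', v') := by
    intro u v u' v' huv hT huv' hT' hr1 hr2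
    by_contra hne
    have h1 := conn_chain hp (hdel u v hT) u
    have h2 := conn_chain hp (hdel u v hT) v
    have h1' := conn_chain hp (hdel u v hT) u'
    have h2' := conn_chain hp (hdel u v hT) v'
    have h3 := induce_union_connected h1.preconnected h1'.preconnected
      ⟨root u, rt_mem_chain u, by rw [hr1]; exact rt_mem_chain u'⟩
    have h4 := induce_union_connected h2.preconnected h2'.preconnected
      ⟨root v, rt_mem_chain v, by rw [hr2]; exact rt_mem_chain v'⟩
    have a1 : (G.deleteEdges {s(u, v)}).Adj u' v' := by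
      rw [deleteEdges_adj]
      refine ⟨huv', ?_⟩
      simp only [Set.mem_singleton_iff, Sym2.eq, Sym2.rel_iff', Prod.mk.injEq, Prod.swap_prod_mk]
      rintro (⟨rfl, rfl⟩ | ⟨rfl, rfl⟩)
      · exact hne rfl
      · exact hi _ _ huv' hT' hr1.symm
    have h5 := connected_induce_union h3.preconnected h4.preconnected
      (Or.inr (self_mem_chain u')) (Or.inr (self_mem_chain v')) a1
    have h6 := nonAc_of_deleteEdge huv (Or.inl (Or.inl (self_mem_chain u)))
      (Or.inr (Or.inl (self_mem_chain v))) h5.preconnected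
    have h7 := hgirth _ h6
    have h8 := Set.ncard_union_le (chain par lev u ∪ chain par lev u')
      (chain par lev v ∪ chain par lev v')
    have h9 := Set.ncard_union_le (chain par lev u) (chain par lev u')
    have h10 := Set.ncard_union_le (chain par lev v) (chain par lev v')
    have := hchain u
    have := hchain v
    have := hchain u'
    have := hchain v'
    omega
  -- the quotient graph
  let M : SimpleGraph Z :=
    { Adj := fun z z' => z ≠ z' ∧ ∃ u v, root u = z ∧ root v = z' ∧ G.Adj u v
      symm := ⟨fun z z' h => ⟨h.1.symm, by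
        obtain ⟨-, u, v, h1, h2, h3⟩ := h
        exact ⟨v, u, h2, h1, h3.symm⟩⟩⟩
      loopless := ⟨fun z h => h.1 rfl⟩ }
  have hM : IsMinor M G := by
    refine ⟨fun z => {v | root v = z}, ?_, ?_, ?_⟩
    · rintro ⟨z, hz⟩
      have hz0 : lev z = 0 := (hZ z).2 hz
      have hrz : root z = z := rt_zero hz0
      refine induce_connected_of_patches z hrz ?_
      intro v hv
      refine ⟨chain par lev v, ?_, ?_, self_mem_chain v, ?_⟩
      · intro w hw
        show root w = z
        rw [← (show root v = z from hv)]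
        exact rt_of_mem_chain hp v w hw
      · have : rt par lev v = z := hv
        rw [← this]
        exact rt_mem_chain v
      · exact (conn_chain hp hadj v).preconnected _ _
    · intro z z' hne
      rw [Set.disjoint_left]
      intro v (h1 : root v = z) (h2 : root v = z')
      exact hne (Subtype.ext (h1.symm.trans h2))
    · rintro z z' ⟨-, u, v, h1, h2, h3⟩
      exact ⟨u, h1, v, h2, h3⟩
  have hZne : Z.Nonempty := ⟨_, hrootZ (Classical.arbitrary V)⟩
  have : Nonempty Z := hZne.to_subtype
  -- counting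
  set D : Set (V × V) := {p | G.Adj p.1 p.2 ∧ ¬ Tr p.1 p.2} with hD
  have c1 : D.ncard ≤ (pairsIn M Set.univ).ncard := by
    refine Set.ncard_le_ncard_of_injOn
      (fun p => ((⟨root p.1, hrootZ _⟩ : Z), (⟨root p.2, hrootZ _⟩ : Z))) ?_ ?_ (Set.toFinite _)
    · rintro ⟨u, v⟩ ⟨h1, h2⟩
      refine ⟨trivial, trivial, ?_, u, v, rfl, rfl, h1⟩
      intro h
      exact hi u v h1 h2 (congrArg Subtype.val h)
    · rintro ⟨u, v⟩ ⟨h1, h2⟩ ⟨u', v'⟩ ⟨h1', h2'⟩ h
      simp only [Prod.mk.injEq, Subtype.mk.injEq] at h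
      exact hii u v u' v' h1 h2 h1' h2' h.1 h.2
  have c2 : (pairsIn G Set.univ).ncard ≤ D.ncard + 2 * Zᶜ.ncard := by
    have h1 : pairsIn G Set.univ ⊆ D ∪ ((fun v => (v, par v)) '' Zᶜ ∪
        (fun v => (par v, v)) '' Zᶜ) := by
      rintro ⟨u, v⟩ ⟨-, -, h⟩
      by_cases hT : Tr u v
      · rcases hT with ⟨h1, rfl⟩ | ⟨h1, rfl⟩
        · right; left; exact ⟨u, fun h2 => h1 ((hZ u).2 h2), rfl⟩
        · right; right; exact ⟨v, fun h2 => h1 ((hZ v).2 h2), rfl⟩
      · left; exact ⟨h, hT⟩
    have h2 := Set.ncard_le_ncard h1 (Set.toFinite _)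
    have h3 := Set.ncard_union_le D ((fun v => (v, par v)) '' Zᶜ ∪ (fun v => (par v, v)) '' Zᶜ)
    have h4 := Set.ncard_union_le ((fun v => (v, par v)) '' Zᶜ) ((fun v => (par v, v)) '' Zᶜ)
    have h5 := Set.ncard_image_le (f := fun v => (v, par v)) (Set.toFinite Zᶜ)
    have h6 := Set.ncard_image_le (f := fun v => (par v, v)) (Set.toFinite Zᶜ)
    omega
  have c3 : 3 * Nat.card V ≤ (pairsIn G Set.univ).ncard := by
    have := pairsIn_univ_ge G (d := 3) (S := Set.univ)
      (fun v _ => by rw [Set.inter_univ]; exact hdeg v)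
    rwa [Set.ncard_univ] at this
  have c4 : Z.ncard + Zᶜ.ncard = Nat.card V := Set.ncard_add_ncard_compl Z
  have c5 : (6 * k + 1) * Z.ncard ≤ Nat.card V := by
    have h1 : ∀ z : Z, ∃ f : Fin (6 * k + 1) → V, Function.Injective f ∧
        ∀ i, f i ∈ reach G {(z : V)} (6 * k) := fun z =>
      exists_injection (ncard_reach_ge hdeg hgirth (Set.singleton_nonempty _) (by omega))
    choose f hf1 hf2 using h1
    have h2 : Function.Injective (fun p : Fin (6 * k + 1) × Z => f p.2 p.1) := by
      rintro ⟨i, z⟩ ⟨j, z'⟩ h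
      simp only at h
      by_cases hzz : z = z'
      · subst hzz; rw [hf1 z h]
      · exfalso
        refine Set.disjoint_left.1 (hsep z z.2 z' z'.2 (fun h => hzz (Subtype.ext h)))
          (hf2 z i) ?_
        rw [h]; exact hf2 z' j
    have h3 := Nat.card_le_card_of_injective _ h2
    rwa [Nat.card_prod, Nat.card_eq_fintype_card, Fintype.card_fin, Nat.card_coe_set_eq] at h3
  have c6 : 6 * k * (Set.univ : Set Z).ncard ≤ (pairsIn M Set.univ).ncard := by
    rw [Set.ncard_univ, Nat.card_coe_set_eq]
    nlinarith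
  have hpk := pack_of_pairs M (k := k) (S := Set.univ) Set.univ_nonempty c6
  have hm : IsMinor (trianglesAndPoints k 0) M := isMinor_of_pack hpk (Nat.zero_le _)
  exact hm.trans hM

end Pool.Agent.Helper97.Pendant
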