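import Mathlib
import Pool.Agent.Helper97.Pendant.Girth

set_option autoImplicit false

namespace Pool.Agent.Helper97.Pendant

open SimpleGraph

variable {V W U : Type}

/-- `G` with all edges inside the neighbourhood of `x` added. -/
def fillIn (G : SimpleGraph V) (x : V) : SimpleGraph V where
  Adj u v := G.Adj u v ∨ (u ≠ v ∧ G.Adj x u ∧ G.Adj x v)
  symm := ⟨by
    rintro u v (h | ⟨h1, h2, h3⟩)
    · exact Or.inl h.symm
    · exact Or.inr ⟨h1.symm, h3, h2⟩⟩
  loopless := ⟨by
    rintro u (h | ⟨h1, -, -⟩)
    · exact G.loopless.irrefl u h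
    · exact h1 rfl⟩

lemma nbr_cases [Finite V] {G : SimpleGraph V} {x : V} (hx : (G.neighborSet x).ncard ≤ 2) :
    G.neighborSet x = ∅ ∨ ∃ a b, G.neighborSet x = {a, b} := by
  rcases Nat.lt_or_ge (G.neighborSet x).ncard 1 with h | h
  · left
    exact (Set.ncard_eq_zero (Set.toFinite _)).1 (by omega)
  · right
    rcases Nat.lt_or_ge (G.neighborSet x).ncard 2 with h2 | h2
    · obtain ⟨a, ha⟩ := Set.ncard_eq_one.1 (show (G.neighborSet x).ncard = 1 by omega)
      exact ⟨a, a, by rw [ha]; simp⟩
    · obtain ⟨a, b, -, hab⟩ := Set.ncard_eq_two.1 (show (G.neighborSet x).ncard = 2 by omega)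
      exact ⟨a, b, hab⟩

lemma isMinor_fillIn [Finite V] {G : SimpleGraph V} {x : V} (hx : (G.neighborSet x).ncard ≤ 2) :
    IsMinor ((fillIn G x).induce {x}ᶜ) G := by
  classical
  rcases nbr_cases hx with h | ⟨a, b, h⟩
  · refine ⟨fun v => {(v : V)}, fun v => conn_singleton G _, ?_, ?_⟩
    · intro u v huv
      exact Set.disjoint_singleton.2 (fun h => huv (Subtype.ext h))
    · rintro ⟨u, hu⟩ ⟨v, hv⟩ (huv | ⟨h1, h2, h3⟩)
      · exact ⟨u, rfl, v, rfl, huv⟩
      · have : u ∈ G.neighborSet x := h2
        rw [h] at this
        exact this.elim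
  · have hxa : G.Adj x a := by
      have : a ∈ G.neighborSet x := by rw [h]; simp
      exact this
    refine ⟨fun v => if (v : V) = a then {a, x} else {(v : V)}, ?_, ?_, ?_⟩
    · intro v
      by_cases hva : (v : V) = a
      · have e : (if (v : V) = a then ({a, x} : Set V) else {(v : V)}) = {a, x} := if_pos hva
        simp only
        rw [e]
        exact induce_pair_connected_of_adj hxa.symm
      · have e : (if (v : V) = a then ({a, x} : Set V) else {(v : V)}) = {(v : V)} := if_neg hva
        simp only
        rw [e]
        exact conn_singleton G _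
    · rintro ⟨u, hu⟩ ⟨v, hv⟩ huv
      simp only [ne_eq, Subtype.mk.injEq] at huv
      simp only [Set.mem_compl_iff, Set.mem_singleton_iff] at hu hv
      simp only
      split_ifs with h1 h2 h2
      · exact absurd (h1.trans h2.symm) huv
      · rw [Set.disjoint_singleton_right]
        rintro (h3 | h3)
        · exact h2 h3
        · exact hv h3
      · rw [Set.disjoint_singleton_left]
        rintro (h3 | h3)
        · exact h1 h3
        · exact hu h3
      · exact Set.disjoint_singleton.2 huv
    · rintro ⟨u, hu⟩ ⟨v, hv⟩ (huv | ⟨h1, h2, h3⟩)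
      · refine ⟨u, ?_, v, ?_, huv⟩
        · simp only; split_ifs with h4
          · rw [h4]; simp
          · rfl
        · simp only; split_ifs with h4
          · rw [h4]; simp
          · rfl
      · change u ≠ v at h1
        have hu' : u ∈ G.neighborSet x := h2
        have hv' : v ∈ G.neighborSet x := h3
        rw [h] at hu' hv'
        simp only
        by_cases hua : u = a
        · refine ⟨x, by rw [if_pos hua]; simp, v, ?_, h3⟩
          split_ifs with h4
          · rw [h4]; simp
          · rfl
        · by_cases hva : v = a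
          · refine ⟨u, by rw [if_neg hua]; rfl, x, by rw [if_pos hva]; simp, ?_⟩
            exact SimpleGraph.Adj.symm (G := G) h2
          · exfalso
            rcases hu' with h4 | h4
            · exact hua h4
            · rcases hv' with h5 | h5
              · exact hva h5
              · exact h1 (h4.trans h5.symm)

lemma td_of_fillIn [Finite V] {G : SimpleGraph V} {x : V} (hx : (G.neighborSet x).ncard ≤ 2)
    {w : ℕ} (hw : 2 ≤ w) (h : HasTreeDecomposition ((fillIn G x).induce {x}ᶜ) w) :
    HasTreeDecomposition G w := by
  rw [td_iff] at h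
  rw [td_univ_iff]
  obtain ⟨N, hN, T, bag, hT, hs, he, hc, hb⟩ := h
  have hxn : x ∉ G.neighborSet x := fun h => G.loopless.irrefl x h
  have hi : ∃ i, G.neighborSet x ⊆ bag i := by
    rcases nbr_cases hx with h | ⟨a, b, h⟩
    · obtain ⟨i⟩ := hT.connected.nonempty
      exact ⟨i, by rw [h]; exact Set.empty_subset _⟩
    · have hxa : a ∈ G.neighborSet x := by rw [h]; simp
      have hxb : b ∈ G.neighborSet x := by rw [h]; simp
      have hax : a ∈ ({x}ᶜ : Set V) := by rintro rfl; exact hxn hxa
      have hbx : b ∈ ({x}ᶜ : Set V) := by rintro rfl; exact hxn hxb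
      by_cases hab : a = b
      · obtain ⟨⟨i, hi⟩⟩ := (hc a hax).nonempty
        refine ⟨i, ?_⟩
        rw [h]
        rintro y (rfl | rfl)
        · exact hi
        · rw [← hab]; exact hi
      · obtain ⟨i, h1, h2⟩ := he a hax b hbx (Or.inr ⟨hab, hxa, hxb⟩)
        refine ⟨i, ?_⟩
        rw [h]
        rintro y (rfl | rfl)
        · exact h1
        · exact h2
  obtain ⟨i1, hi1⟩ := hi
  have hun : ({x}ᶜ : Set V) ∪ insert x (G.neighborSet x) = Set.univ := by
    ext y
    by_cases hy : y = x <;> simp [hy]
  rw [← hun]
  have hcap : ({x}ᶜ : Set V) ∩ insert x (G.neighborSet x) ⊆ G.neighborSet x := by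
    rintro y ⟨h1, h2 | h2⟩
    · exact absurd h2 h1
    · exact h2
  refine td_glue (T2 := (⊥ : SimpleGraph Unit)) (b2 := fun _ => insert x (G.neighborSet x)) hT
    IsTree.of_subsingleton hs (fun _ => subset_rfl) ?_ (fun u hu v hv _ => ⟨(), hu, hv⟩) hc ?_ hb
    ?_ i1 () (hcap.trans hi1) Set.inter_subset_right ?_
  · intro u hu v hv huv
    exact he u hu v hv (Or.inl huv)
  · intro v hv
    have : Nonempty {i : Unit | v ∈ insert x (G.neighborSet x)} := ⟨⟨(), hv⟩⟩
    exact Connected.of_subsingleton
  · intro _
    have := Set.ncard_insert_le x (G.neighborSet x)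
    omega
  · intro u v _ _ huv
    by_cases hu : u = x
    · right
      subst hu
      exact ⟨Set.mem_insert _ _, Set.mem_insert_of_mem _ huv⟩
    · by_cases hv : v = x
      · right
        subst hv
        exact ⟨Set.mem_insert_of_mem _ huv.symm, Set.mem_insert _ _⟩
      · left
        exact ⟨hu, hv⟩

/-- Large tree-width forces `k` disjoint cycles. -/
theorem exists_width_forcing : ∀ k : ℕ, ∃ C : ℕ, ∀ (V : Type) (_ : Finite V)
    (G : SimpleGraph V), ¬ HasTreeDecomposition G C → IsMinor (trianglesAndPoints k 0) G := by
  intro k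
  induction k with
  | zero =>
    refine ⟨0, fun V _ G _ => ?_⟩
    exact isMinor_of_pack (pack_zero G ∅) (Nat.zero_le _)
  | succ k ih =>
    obtain ⟨C, hC⟩ := ih
    set l := 8 * (6 * (k + 1)) + 4 with hl
    refine ⟨C + l + 2, ?_⟩
    have key : ∀ (n : ℕ) (V : Type) (_ : Finite V) (G : SimpleGraph V), Nat.card V = n →
        ¬ HasTreeDecomposition G (C + l + 2) → IsMinor (trianglesAndPoints (k + 1) 0) G := by
      intro n
      induction n using Nat.strong_induction_on with
      | _ n ihn =>
        intro V _ G hn hG
        have hne : Nonempty V := by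
          by_contra hemp
          rw [not_nonempty_iff] at hemp
          apply hG
          rw [td_univ_iff]
          apply td_of_ncard_le
          rw [Set.ncard_univ, Nat.card_of_isEmpty]
          omega
        by_cases hdeg : ∀ v, 3 ≤ (G.neighborSet v).ncard
        · by_cases hgirth : ∀ S, NonAc G S → l < S.ncard
          · exact isMinor_of_girth G hdeg hgirth
          · push Not at hgirth
            obtain ⟨S, hS1, hS2⟩ := hgirth
            have h1 : ¬ TD G Sᶜ C := by
              intro h
              apply hG
              rw [td_univ_iff, ← Set.compl_union_self S]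
              exact (td_union h).mono_width (by omega)
            rw [← td_iff] at h1
            have h2 := hC _ inferInstance _ h1
            rw [isMinor_induce_iff] at h2
            obtain ⟨S', hS', hpk, -⟩ := pack_of_minorIn h2
            have h3 : Pack G (k + 1) Set.univ := by
              refine Pack.succ hS1 (Set.subset_univ _) (hpk.mono ?_)
              rw [← Set.compl_eq_univ_sdiff]
              exact hS'
            exact isMinor_of_pack h3 (Nat.zero_le _)
        · push Not at hdeg
          obtain ⟨x, hx⟩ := hdeg
          have hx2 : (G.neighborSet x).ncard ≤ 2 := by omega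
          have h1 : ¬ HasTreeDecomposition ((fillIn G x).induce {x}ᶜ) (C + l + 2) :=
            fun h => hG (td_of_fillIn hx2 (by omega) h)
          have h2 : Nat.card ({x}ᶜ : Set V) < n := by
            rw [Nat.card_coe_set_eq, ← hn]
            have := Set.ncard_add_ncard_compl ({x} : Set V)
            rw [Set.ncard_singleton] at this
            omega
          exact (ihn _ h2 _ inferInstance _ rfl h1).trans (isMinor_fillIn hx2)
    intro V hV G hG
    exact key _ V hV G rfl hG

end Pool.Agent.Helper97.Pendant
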