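import Mathlib
import Pool.Agent.Helper97.Pendant.TreeDec

set_option autoImplicit false

namespace Pool.Agent.Helper97.Pendant

open SimpleGraph

variable {V N : Type}

/-- `A` avoids `t` and is closed under adjacency outside `t`. -/
def AClosed (T : SimpleGraph N) (t : N) (A : Set N) : Prop :=
  t ∉ A ∧ ∀ i ∈ A, ∀ j, T.Adj i j → j ≠ t → j ∈ A

lemma AClosed.reach {T : SimpleGraph N} {t : N} {A C : Set N} (hA : AClosed T t A) (htC : t ∉ C)
    {a b : C} (h : (T.induce C).Reachable a b) (ha : (a : N) ∈ A) : (b : N) ∈ A := by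
  obtain ⟨p⟩ := h
  induction p with
  | nil => exact ha
  | @cons u v w huv p ih =>
    refine ih (hA.2 _ ha _ huv ?_)
    intro h
    exact htC (h ▸ v.2)

/-- The vertices all of whose bags lie in `A`. -/
def inBags (bag : N → Set V) (A : Set N) : Set V := {v | ∀ i, v ∈ bag i → i ∈ A}

lemma inBags_union {T : SimpleGraph N} {bag : N → Set V}
    (hc : ∀ v, (T.induce {i | v ∈ bag i}).Connected) {t : N} {A B : Set N}
    (hA : AClosed T t A) (hB : AClosed T t B) :
    inBags bag (A ∪ B) ⊆ inBags bag A ∪ inBags bag B := by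
  intro v hv
  obtain ⟨i0⟩ := (hc v).nonempty
  have ht : t ∉ {i | v ∈ bag i} := by
    intro ht
    rcases hv t ht with h | h
    · exact hA.1 h
    · exact hB.1 h
  rcases hv i0 i0.2 with h | h
  · left
    intro i hi
    exact hA.reach ht ((hc v).preconnected i0 ⟨i, hi⟩) h
  · right
    intro i hi
    exact hB.reach ht ((hc v).preconnected i0 ⟨i, hi⟩) h

theorem card_le_of_separated [Finite V] {G : SimpleGraph V} {w q : ℕ}
    (hTD : HasTreeDecomposition G w)
    (hq : ∀ X Y : Set V, Disjoint X Y → (∀ x ∈ X, ∀ y ∈ Y, ¬ G.Adj x y) →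
      X.ncard ≤ q ∨ Y.ncard ≤ q) : Nat.card V ≤ w + 1 + 3 * q := by
  classical
  obtain ⟨N, hN, T, bag, hT, hv, he, hc, hw⟩ := hTD
  by_contra hcon
  have hcompl : ∀ t, 3 * q < (inBags bag ({t}ᶜ)).ncard := by
    intro t
    have h1 : (bag t)ᶜ ⊆ inBags bag ({t}ᶜ) := by
      intro v hv i hi h
      rw [Set.mem_singleton_iff] at h
      subst h
      exact hv hi
    have h2 := Set.ncard_le_ncard h1 (Set.toFinite _)
    have h3 := Set.ncard_add_ncard_compl (bag t)
    have h4 := hw t
    omega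
  have hself : ∀ t, AClosed T t {t}ᶜ := fun t => ⟨fun h => h rfl, fun i _ j _ hj => hj⟩
  have hsep : ∀ A B : Set N, Disjoint A B →
      (inBags bag A).ncard ≤ q ∨ (inBags bag B).ncard ≤ q := by
    intro A B hAB
    rw [Set.disjoint_left] at hAB
    apply hq
    · rw [Set.disjoint_left]
      intro v h1 h2
      obtain ⟨i, hi⟩ := hv v
      exact hAB (h1 i hi) (h2 i hi)
    · intro x hx y hy hxy
      obtain ⟨i, hi1, hi2⟩ := he x y hxy
      exact hAB (hx i hi1) (hy i hi2)
  have hsplit : ∀ t A B, AClosed T t A → AClosed T t B → A ∪ B = {t}ᶜ →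
      3 * q < (inBags bag A).ncard + (inBags bag B).ncard := by
    intro t A B hA hB hAB
    have h1 := hcompl t
    rw [← hAB] at h1
    have h2 := Set.ncard_le_ncard (inBags_union hc hA hB) (Set.toFinite _)
    have h3 := Set.ncard_union_le (inBags bag A) (inBags bag B)
    omega
  obtain ⟨t0⟩ := hT.connected.nonempty
  obtain ⟨⟨t, A⟩, ⟨hA, hAq⟩, hmin⟩ := Set.exists_min_image
    {p : N × Set N | AClosed T p.1 p.2 ∧ q < (inBags bag p.2).ncard} (fun p => p.2.ncard)
    (Set.toFinite _) ⟨(t0, {t0}ᶜ), hself t0, by have := hcompl t0; simp only; omega⟩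
  simp only at hA hAq
  have hmin' : ∀ s B, AClosed T s B → B ⊆ A → B ≠ A → (inBags bag B).ncard ≤ q := by
    intro s B hB hBA hne
    by_contra hcon2
    have h1 := hmin (s, B) ⟨hB, by simpa using hcon2⟩
    have h2 := Set.ncard_lt_ncard (LE.le.ssubset_of_ne hBA hne) (Set.toFinite _)
    simp only at h1
    omega
  -- a neighbour of `t` in `A`
  have hne : A.Nonempty := by
    have : (inBags bag A).Nonempty := by
      rw [← Set.ncard_pos (Set.toFinite _)]; omega
    obtain ⟨v, hv1⟩ := this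
    obtain ⟨i, hi⟩ := hv v
    exact ⟨i, hv1 i hi⟩
  obtain ⟨i0, hi0⟩ := hne
  obtain ⟨p⟩ := hT.connected.preconnected i0 t
  obtain ⟨d, -, hd1, hd2⟩ := p.exists_boundary_dart A hi0 hA.1
  have hdt : d.snd = t := by
    by_contra h
    exact hd2 (hA.2 _ hd1 _ d.adj h)
  set t' := d.fst with ht'
  have htt' : T.Adj t' t := hdt ▸ d.adj
  have ht'A : t' ∈ A := hd1
  -- the component of `t'`
  set K : Set N := {i | ∃ h : i ∈ ({t}ᶜ : Set N),
    (T.induce ({t}ᶜ : Set N)).Reachable ⟨t', htt'.ne⟩ ⟨i, h⟩} with hK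
  have hKc : AClosed T t K := by
    refine ⟨fun ⟨h, _⟩ => h rfl, ?_⟩
    rintro i ⟨hi, hr⟩ j hij hj
    refine ⟨hj, hr.trans ?_⟩
    exact Adj.reachable (G := T.induce ({t}ᶜ : Set N)) (u := ⟨i, hi⟩) (v := ⟨j, hj⟩) hij
  have hKA : K ⊆ A := by
    rintro i ⟨hi, hr⟩
    exact hA.reach (C := {t}ᶜ) (fun h => h rfl) hr ht'A
  have ht'K : t' ∈ K := ⟨htt'.ne, Reachable.refl _⟩
  have hAKc : AClosed T t (A \ K) := by
    refine ⟨fun h => hA.1 h.1, ?_⟩
    rintro i ⟨hi1, hi2⟩ j hij hj
    refine ⟨hA.2 _ hi1 _ hij hj, fun hjK => hi2 (hKc.2 _ hjK _ hij.symm ?_)⟩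
    rintro rfl
    exact hA.1 hi1
  have hAcc : AClosed T t ({t}ᶜ \ A) := by
    refine ⟨fun h => h.1 rfl, ?_⟩
    rintro i ⟨hi1, hi2⟩ j hij hj
    exact ⟨hj, fun hjA => hi2 (hA.2 _ hjA _ hij.symm hi1)⟩
  have hKeq : K = A := by
    by_contra hKne
    have h1 := hmin' t K hKc hKA hKne
    have h2 := hmin' t (A \ K) hAKc Set.sdiff_subset (fun h => by
      have : t' ∈ A \ K := by rw [h]; exact ht'A
      exact this.2 ht'K)
    have h3 : (inBags bag A).ncard ≤ 2 * q := by
      have h4 := inBags_union hc hKc hAKc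
      rw [Set.union_sdiff_cancel hKA] at h4
      have h5 := Set.ncard_le_ncard h4 (Set.toFinite _)
      have h6 := Set.ncard_union_le (inBags bag K) (inBags bag (A \ K))
      omega
    have h4 := hsplit t A ({t}ᶜ \ A) hA hAcc (Set.union_sdiff_cancel (fun i hi h => by
      rw [Set.mem_singleton_iff] at h
      subst h
      exact hA.1 hi))
    have h5 := hsep A ({t}ᶜ \ A) (Set.disjoint_sdiff_right)
    omega
  -- the neighbour is unique
  have huniq : ∀ i ∈ A, T.Adj i t → i = t' := by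
    intro i hi hit
    by_contra hne
    rw [← hKeq] at hi
    obtain ⟨hi1, hr⟩ := hi
    have hb := (isAcyclic_iff_forall_adj_isBridge.1 hT.isAcyclic) htt'
    rw [isBridge_iff] at hb
    apply hb
    have h1 : (T.deleteEdges {s(t', t)}).Reachable t' i := by
      let φ : T.induce ({t}ᶜ : Set N) →g T.deleteEdges {s(t', t)} :=
        { toFun := fun a => a
          map_rel' := by
            intro a b hab
            rw [deleteEdges_adj]
            refine ⟨hab, ?_⟩
            rw [Set.mem_singleton_iff, Sym2.eq_iff]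
            rintro (⟨-, h⟩ | ⟨h, -⟩)
            · exact b.2 h
            · exact a.2 h }
      exact hr.map φ
    refine h1.trans (Adj.reachable ?_)
    rw [deleteEdges_adj]
    refine ⟨hit, ?_⟩
    rw [Set.mem_singleton_iff, Sym2.eq_iff]
    rintro (⟨h, -⟩ | ⟨h, -⟩)
    · exact hne h
    · exact hi1 h
  have hD : AClosed T t' (A \ {t'}) := by
    refine ⟨fun h => h.2 rfl, ?_⟩
    rintro i ⟨hi1, hi2⟩ j hij hj
    refine ⟨?_, hj⟩
    by_contra hjA
    have : j = t := by
      by_contra hjt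
      exact hjA (hA.2 _ hi1 _ hij hjt)
    subst this
    exact hi2 (huniq i hi1 hij)
  have hE : AClosed T t' Aᶜ := by
    refine ⟨fun h => h ht'A, ?_⟩
    intro i hi j hij hj hjA
    have : i = t := by
      by_contra hit
      exact hi (hA.2 _ hjA _ hij.symm hit)
    subst this
    exact hj (huniq j hjA hij.symm)
  have h1 := hmin' t' (A \ {t'}) hD Set.sdiff_subset (fun h => by
    have : t' ∈ A \ {t'} := by rw [h]; exact ht'A
    exact this.2 rfl)
  have h2 := hsep A Aᶜ disjoint_compl_right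
  have h3 := hsplit t' (A \ {t'}) Aᶜ hD hE (by
    ext i
    simp only [Set.mem_union, Set.mem_sdiff, Set.mem_singleton_iff, Set.mem_compl_iff]
    constructor
    · rintro (h | h)
      · exact h.2
      · rintro rfl
        exact h ht'A
    · intro h
      by_cases hi : i ∈ A
      · exact Or.inl ⟨hi, h⟩
      · exact Or.inr hi)
  omega

end Pool.Agent.Helper97.Pendant
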