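import Mathlib
import Pool.Agent.Helper97.Pendant.Separator
import Pool.Agent.Helper97.Pendant.Packing
import Pool.Agent.Helper97.Pendant.Convert

set_option autoImplicit false

namespace Pool.Agent.Helper97.Pendant

open SimpleGraph

section Incidence

variable {p : ℕ} [Fact p.Prime]

/-- The incidence relation behind the host graph. -/
def par (x y : ZMod p × ZMod p) : Prop := (x.1 - y.1) ^ 2 = x.2 + y.2

instance (x y : ZMod p × ZMod p) : Decidable (par x y) := by unfold par; infer_instance

lemma par_symm {x y : ZMod p × ZMod p} (h : par x y) : par y x := by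
  unfold par at *
  rw [add_comm, ← h]; ring

lemma two_ne (hp : p ≠ 2) : (2 : ZMod p) ≠ 0 := by
  have := ZMod.ringChar_zmod_n p
  exact Ring.two_ne_zero (by rw [this]; exact hp)

lemma par_unique (hp : p ≠ 2) {x x' y y' : ZMod p × ZMod p} (hx : x ≠ x') (h1 : par x y)
    (h2 : par x' y) (h3 : par x y') (h4 : par x' y') : y = y' := by
  obtain ⟨a, D⟩ := x
  obtain ⟨a', D'⟩ := x'
  obtain ⟨b, E⟩ := y
  obtain ⟨b', E'⟩ := y'
  unfold par at *
  simp only at *
  have h5 : 2 * (a - a') * (b - b') = 0 := by linear_combination h2 - h1 + h3 - h4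
  have h2ne := two_ne hp
  rcases mul_eq_zero.1 h5 with h6 | h6
  · rcases mul_eq_zero.1 h6 with h7 | h7
    · exact absurd h7 h2ne
    · have h8 : a = a' := sub_eq_zero.1 h7
      subst h8
      exact absurd (by rw [show D = D' by linear_combination h2 - h1]) hx
  · have h8 : b = b' := sub_eq_zero.1 h6
    subst h8
    rw [show E = E' by linear_combination h3 - h1]

lemma card_par (x : ZMod p × ZMod p) : (Finset.univ.filter (fun y => par x y)).card = p := by
  have h1 : (Finset.univ.filter (fun y => par x y)) =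
      Finset.univ.image (fun a : ZMod p => (a, (x.1 - a) ^ 2 - x.2)) := by
    ext ⟨a, D⟩
    simp only [Finset.mem_filter, Finset.mem_univ, true_and, Finset.mem_image, Prod.mk.injEq]
    unfold par
    constructor
    · intro h; exact ⟨a, rfl, by simp only at h; rw [h]; ring⟩
    · rintro ⟨b, rfl, h⟩
      simp only
      rw [← h]; ring
  rw [h1, Finset.card_image_of_injective _ (fun a b h => (Prod.mk.inj h).1), Finset.card_univ,
    ZMod.card]

lemma sum_r (X : Finset (ZMod p × ZMod p)) :
    ∑ y, ((X.filter (fun x => par x y)).card : ℤ) = p * X.card := by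
  have h1 : ∀ y, ((X.filter (fun x => par x y)).card : ℤ) = ∑ x ∈ X, if par x y then 1 else 0 := by
    intro y; rw [Finset.card_filter]; push_cast; rfl
  simp only [h1]
  rw [Finset.sum_comm]
  have h2 : ∀ x : ZMod p × ZMod p, (∑ y, if par x y then (1 : ℤ) else 0) = p := by
    intro x
    rw [← Finset.sum_filter, Finset.sum_const, card_par]; simp
  simp only [h2, Finset.sum_const, nsmul_eq_mul]
  ring

lemma sum_r_sq (hp : p ≠ 2) (X : Finset (ZMod p × ZMod p)) :
    ∑ y, ((X.filter (fun x => par x y)).card : ℤ) ^ 2 ≤ p * X.card + X.card ^ 2 := by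
  have h1 : ∀ y, ((X.filter (fun x => par x y)).card : ℤ) ^ 2 =
      ∑ x ∈ X, ∑ x' ∈ X, if par x y ∧ par x' y then 1 else 0 := by
    intro y
    have : ((X.filter (fun x => par x y)).card : ℤ) = ∑ x ∈ X, if par x y then 1 else 0 := by
      rw [Finset.card_filter]; push_cast; rfl
    rw [this, sq, Finset.sum_mul_sum]
    refine Finset.sum_congr rfl fun x _ => Finset.sum_congr rfl fun x' _ => ?_
    by_cases h : par x y <;> by_cases h' : par x' y <;> simp [h, h']
  simp only [h1]
  rw [Finset.sum_comm]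
  have h2 : ∀ x ∈ X, (∑ y, ∑ x' ∈ X, if par x y ∧ par x' y then (1 : ℤ) else 0) ≤
      p + X.card := by
    intro x hx
    rw [Finset.sum_comm]
    have h3 : ∀ x' ∈ X, (∑ y, if par x y ∧ par x' y then (1 : ℤ) else 0) ≤
        (if x' = x then (p : ℤ) else 0) + 1 := by
      intro x' _
      rw [← Finset.sum_filter, Finset.sum_const, nsmul_eq_mul, mul_one]
      by_cases hxx : x' = x
      · subst hxx
        simp only [and_self, if_true]
        rw [card_par]; omega
      · rw [if_neg hxx, zero_add]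
        have : (Finset.univ.filter (fun y => par x y ∧ par x' y)).card ≤ 1 := by
          rw [Finset.card_le_one]
          intro y hy y' hy'
          rw [Finset.mem_filter] at hy hy'
          exact par_unique hp (Ne.symm hxx) hy.2.1 hy.2.2 hy'.2.1 hy'.2.2
        exact_mod_cast this
    refine (Finset.sum_le_sum h3).trans ?_
    rw [Finset.sum_add_distrib, Finset.sum_ite_eq' X x]
    simp [hx]
  refine (Finset.sum_le_sum h2).trans ?_
  rw [Finset.sum_const, nsmul_eq_mul]
  apply le_of_eq; ring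

/-- Two sets without incidences between them cannot both be large. -/
lemma hole_bound (hp : p ≠ 2) (X Y : Finset (ZMod p × ZMod p))
    (h : ∀ x ∈ X, ∀ y ∈ Y, ¬ par x y) : X.card * Y.card ≤ p ^ 3 := by
  rcases Nat.eq_zero_or_pos X.card with h0 | h0
  · rw [h0]; simp
  have h1 : (X.card : ℤ) ^ 2 * Y.card ≤
      ∑ y, ((p : ℤ) * ((X.filter (fun x => par x y)).card : ℤ) - X.card) ^ 2 := by
    have h2 : ∑ y ∈ Y, ((p : ℤ) * ((X.filter (fun x => par x y)).card : ℤ) - X.card) ^ 2 =
        (X.card : ℤ) ^ 2 * Y.card := by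
      have h3 : ∀ y ∈ Y, ((p : ℤ) * ((X.filter (fun x => par x y)).card : ℤ) - X.card) ^ 2 =
          (X.card : ℤ) ^ 2 := by
        intro y hy
        have : X.filter (fun x => par x y) = ∅ := by
          rw [Finset.filter_eq_empty_iff]
          exact fun x hx => h x hx y hy
        rw [this]; simp
      rw [Finset.sum_congr rfl h3, Finset.sum_const, nsmul_eq_mul]; ring
    rw [← h2]
    exact Finset.sum_le_univ_sum_of_nonneg (fun y => sq_nonneg _)
  have h2 : ∑ y, ((p : ℤ) * ((X.filter (fun x => par x y)).card : ℤ) - X.card) ^ 2 =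
      (p : ℤ) ^ 2 * ∑ y, ((X.filter (fun x => par x y)).card : ℤ) ^ 2
        - 2 * p * X.card * ∑ y, ((X.filter (fun x => par x y)).card : ℤ)
        + p ^ 2 * (X.card : ℤ) ^ 2 := by
    have h3 : ∀ y, ((p : ℤ) * ((X.filter (fun x => par x y)).card : ℤ) - X.card) ^ 2 =
        (p : ℤ) ^ 2 * ((X.filter (fun x => par x y)).card : ℤ) ^ 2
        - 2 * p * X.card * ((X.filter (fun x => par x y)).card : ℤ) + (X.card : ℤ) ^ 2 := by
      intro y; ring
    simp only [h3]
    rw [Finset.sum_add_distrib, Finset.sum_sub_distrib, ← Finset.mul_sum, ← Finset.mul_sum,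
      Finset.sum_const, Finset.card_univ, Fintype.card_prod, ZMod.card, nsmul_eq_mul]
    push_cast; ring
  have h3 := sum_r_sq hp X
  rw [sum_r] at h2
  have h4 : (X.card : ℤ) ^ 2 * Y.card ≤ (p : ℤ) ^ 3 * X.card := by
    have : (p : ℤ) ^ 2 * ∑ y, ((X.filter (fun x => par x y)).card : ℤ) ^ 2 ≤
      (p : ℤ) ^ 2 * (p * X.card + X.card ^ 2) := mul_le_mul_of_nonneg_left h3 (by positivity)
    nlinarith
  have h5 : (X.card : ℤ) * ((X.card : ℤ) * Y.card) ≤ (X.card : ℤ) * (p : ℤ) ^ 3 := by
    nlinarith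
  have h6 := le_of_mul_le_mul_left h5 (by exact_mod_cast h0)
  exact_mod_cast h6

/-- Vertices of the host graph: pairs whose second coordinate is a nonzero square. -/
abbrev HostV (p : ℕ) : Type := {x : ZMod p × ZMod p // x.2 ≠ 0 ∧ IsSquare x.2}

/-- The host graph. -/
def hostG (hp : p ≠ 2) : SimpleGraph (HostV p) where
  Adj x y := par x.1 y.1
  symm := ⟨fun _ _ h => par_symm h⟩
  loopless := ⟨fun x h => by
    have h1 : (2 : ZMod p) * x.1.2 = 0 := by
      have h2 : (x.1.1 - x.1.1) ^ 2 = x.1.2 + x.1.2 := h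
      linear_combination -h2
    rcases mul_eq_zero.1 h1 with h3 | h3
    · exact two_ne hp h3
    · exact x.2.1 h3⟩

lemma hostG_triangle_free (hp : p ≠ 2) (hp4 : p % 4 = 3) (x y z : HostV p)
    (h1 : (hostG hp).Adj x y) (h2 : (hostG hp).Adj y z) (h3 : (hostG hp).Adj x z) : False := by
  obtain ⟨⟨a, D⟩, hD, ⟨s, hs⟩⟩ := x
  obtain ⟨⟨b, E⟩, hE, ⟨t, ht⟩⟩ := y
  obtain ⟨⟨c, F⟩, hF, ⟨r, hr⟩⟩ := z
  have e1 : (a - b) ^ 2 = D + E := h1
  have e2 : (b - c) ^ 2 = E + F := h2
  have e3 : (a - c) ^ 2 = D + F := h3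
  simp only at hD hE hF hs ht hr
  have h2ne := two_ne hp
  have e4 : (a - b) * (b - c) = -E := by
    have : 2 * ((a - b) * (b - c) + E) = 0 := by linear_combination e3 - e1 - e2
    rcases mul_eq_zero.1 this with h | h
    · exact absurd h h2ne
    · linear_combination h
  have e5 : D * F = - E * (a - c) ^ 2 := by
    have : ((a - b) * (b - c)) ^ 2 = (D + E) * (E + F) := by rw [mul_pow, e1, e2]
    rw [e4] at this
    rw [e3]
    linear_combination -this
  have hw : a - c ≠ 0 := by
    intro h
    rw [h] at e5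
    have : D * F = 0 := by rw [e5]; ring
    rcases mul_eq_zero.1 this with h | h
    · exact hD h
    · exact hF h
  have ht0 : t ≠ 0 := by rintro rfl; exact hE (by rw [ht]; ring)
  have hsq : IsSquare (-1 : ZMod p) := by
    refine ⟨s * r / (t * (a - c)), ?_⟩
    field_simp
    rw [hs, hr, ht] at e5
    linear_combination -e5
  exact (ZMod.exists_sq_eq_neg_one_iff.1 hsq) hp4

lemma five_le_of_nonAc (hp : p ≠ 2) (hp4 : p % 4 = 3) {C : Set (HostV p)}
    (h : NonAc (hostG hp) C) : 5 ≤ C.ncard := by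
  classical
  obtain ⟨D, hDC, ⟨v, hv⟩, hdeg⟩ := exists_core_of_nonAc h
  have key : ∀ x ∈ D, ∀ y, ∃ z ∈ D, (hostG hp).Adj x z ∧ z ≠ y := by
    intro x hx y
    have h1 := hdeg x hx
    have h2 : 0 < (((hostG hp).neighborSet x ∩ D) \ {y}).ncard := by
      have h3 := Set.ncard_le_ncard (show (hostG hp).neighborSet x ∩ D ⊆
        insert y (((hostG hp).neighborSet x ∩ D) \ {y}) by
          intro z hz
          by_cases hzy : z = y
          · left; exact hzy
          · right; exact ⟨hz, hzy⟩) (Set.toFinite _)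
      have h4 := Set.ncard_insert_le y (((hostG hp).neighborSet x ∩ D) \ {y})
      omega
    rw [Set.ncard_pos (Set.toFinite _)] at h2
    obtain ⟨z, ⟨hz1, hz2⟩, hz3⟩ := h2
    exact ⟨z, hz2, hz1, hz3⟩
  obtain ⟨u1, hu1, a1, -⟩ := key v hv v
  obtain ⟨u2, hu2, a2, hu12⟩ := key v hv u1
  obtain ⟨w1, hw1, b1, hw1v⟩ := key u1 hu1 v
  obtain ⟨w2, hw2, b2, hw2v⟩ := key u2 hu2 v
  have n1 : w1 ≠ u2 := fun h => hostG_triangle_free hp hp4 v u1 u2 a1 (h ▸ b1) a2
  have n2 : w2 ≠ u1 := fun h => hostG_triangle_free hp hp4 v u2 u1 a2 (h ▸ b2) a1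
  have n3 : w1 ≠ w2 := by
    intro h
    subst h
    have c1 : par u1.1 v.1 := par_symm a1
    have c2 : par u2.1 v.1 := par_symm a2
    have := par_unique hp (fun h => hu12 (Subtype.ext h).symm) c1 c2 b1 b2
    exact hw1v (Subtype.ext this).symm
  have hsub : ({v, u1, u2, w1, w2} : Set (HostV p)) ⊆ C := by
    rintro y (rfl | rfl | rfl | rfl | rfl)
    · exact hDC hv
    · exact hDC hu1
    · exact hDC hu2
    · exact hDC hw1
    · exact hDC hw2
  have hcard : ({v, u1, u2, w1, w2} : Set (HostV p)).ncard = 5 := by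
    rw [Set.ncard_insert_of_notMem, Set.ncard_insert_of_notMem, Set.ncard_insert_of_notMem,
      Set.ncard_insert_of_notMem, Set.ncard_singleton]
    · exact fun h => n3 h
    · rintro (h | h)
      · exact n1 h.symm
      · exact b2.ne h
    · rintro (h | h | h)
      · exact hu12 h.symm
      · exact b1.ne h
      · exact n2 h.symm
    · rintro (h | h | h | h)
      · exact a1.ne h
      · exact a2.ne h
      · exact hw1v h.symm
      · exact hw2v h.symm
  rw [← hcard]
  exact Set.ncard_le_ncard hsub (Set.toFinite _)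

lemma card_of_pack {V : Type} [Finite V] {G : SimpleGraph V} {c k : ℕ} {S : Set V}
    (hG : ∀ C, NonAc G C → c ≤ C.ncard) (h : Pack G k S) : c * k ≤ Nat.card V := by
  obtain ⟨C, h1, h2, h3⟩ := h
  choose f hf1 hf2 using fun i => exists_injection (hG _ (h2 i))
  have hinj : Function.Injective (fun q : Fin c × Fin k => f q.2 q.1) := by
    rintro ⟨i, j⟩ ⟨i', j'⟩ hq
    simp only at hq
    have hj : j = j' := by
      by_contra hj
      exact Set.disjoint_left.1 (h3 j j' hj) (hf2 j i) (hq ▸ hf2 j' i')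
    subst hj
    rw [hf1 j hq]
  have := Nat.card_le_card_of_injective _ hinj
  rwa [Nat.card_prod, Nat.card_eq_fintype_card, Nat.card_eq_fintype_card, Fintype.card_fin,
    Fintype.card_fin] at this

lemma card_host : p * (p - 1) ≤ 2 * Nat.card (HostV p) := by
  classical
  set s : Finset (ZMod p × ZMod p) := Finset.univ ×ˢ (Finset.univ.erase 0) with hs
  set f : ZMod p × ZMod p → ZMod p × ZMod p := fun x => (x.1, x.2 ^ 2) with hf
  have h1 : s.card ≤ 2 * (s.image f).card := by
    apply Finset.card_le_mul_card_image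
    intro y hy
    rw [Finset.mem_image] at hy
    obtain ⟨⟨a, t⟩, -, rfl⟩ := hy
    have h2 : s.filter (fun x => f x = f (a, t)) ⊆ {(a, t), (a, -t)} := by
      rintro ⟨b, r⟩ hb
      rw [Finset.mem_filter] at hb
      obtain ⟨-, hb⟩ := hb
      simp only [hf, Prod.mk.injEq] at hb
      obtain ⟨rfl, hb⟩ := hb
      rcases sq_eq_sq_iff_eq_or_eq_neg.1 hb with h | h
      · simp [h]
      · simp [h]
    exact (Finset.card_le_card h2).trans Finset.card_le_two
  have h2 : s.card = p * (p - 1) := by
    rw [hs, Finset.card_product, Finset.card_univ, Finset.card_erase_of_mem (Finset.mem_univ _),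
      Finset.card_univ, ZMod.card]
  have h3 : (s.image f).card ≤ Nat.card (HostV p) := by
    have h4 : ∀ y ∈ s.image f, y.2 ≠ 0 ∧ IsSquare y.2 := by
      intro y hy
      rw [Finset.mem_image] at hy
      obtain ⟨⟨a, t⟩, hat, rfl⟩ := hy
      simp only [hs, Finset.mem_product, Finset.mem_univ, Finset.mem_erase, true_and,
        and_true] at hat
      exact ⟨pow_ne_zero 2 hat, ⟨t, by simp only [hf]; ring⟩⟩
    have h5 : Function.Injective (fun y : (s.image f) => (⟨y.1, h4 y.1 y.2⟩ : HostV p)) := by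
      intro y y' hyy
      have h6 : (y : ZMod p × ZMod p) = y' := congrArg (fun z : HostV p => z.1) hyy
      exact Subtype.ext h6
    have := Nat.card_le_card_of_injective _ h5
    rwa [Nat.card_eq_fintype_card, Fintype.card_coe] at this
  omega

lemma hole_host (hp : p ≠ 2) {q : ℕ} (hq : p ^ 3 < (q + 1) ^ 2) (X Y : Set (HostV p))
    (h : ∀ x ∈ X, ∀ y ∈ Y, ¬ (hostG hp).Adj x y) : X.ncard ≤ q ∨ Y.ncard ≤ q := by
  classical
  by_contra hcon
  push Not at hcon
  obtain ⟨h1, h2⟩ := hcon
  have e : ∀ Z : Set (HostV p), ((Subtype.val '' Z : Set (ZMod p × ZMod p)).toFinset).card =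
      Z.ncard := by
    intro Z
    rw [← Set.ncard_eq_toFinset_card', Set.ncard_image_of_injective _ Subtype.val_injective]
  have h3 := hole_bound hp ((Subtype.val '' X : Set (ZMod p × ZMod p)).toFinset)
    ((Subtype.val '' Y : Set (ZMod p × ZMod p)).toFinset) (by
      intro x hx y hy
      rw [Set.mem_toFinset] at hx hy
      obtain ⟨x', hx', rfl⟩ := hx
      obtain ⟨y', hy', rfl⟩ := hy
      exact h x' hx' y' hy')
  rw [e, e] at h3
  have h4 : (q + 1) ^ 2 ≤ X.ncard * Y.ncard := by
    rw [sq]; exact Nat.mul_le_mul h1 h2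
  omega

end Incidence

/-- Many triangles can be forced only by a tree-width of at least three times their number. -/
theorem lower : ∃ k : ℕ, 1 ≤ k ∧ ∀ w ∈ forcingWidths (trianglesAndPoints k 0), 3 * k ≤ w := by
  have hprime : Fact (Nat.Prime 251) := ⟨by norm_num⟩
  have hp : (251 : ℕ) ≠ 2 := by norm_num
  set n := Nat.card (HostV 251) with hn
  have hn1 : 31375 ≤ n := by
    have := card_host (p := 251)
    omega
  refine ⟨n / 5 + 1, by omega, ?_⟩
  intro w hw
  by_contra hcon
  have h1 : ¬ HasTreeDecomposition (hostG hp) (3 * (n / 5 + 1) - 2) := by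
    intro h
    have h2 := card_le_of_separated (q := 3976) h (fun X Y _ hXY =>
      hole_host hp (by norm_num) X Y hXY)
    omega
  have h2 : w ≤ treewidth (hostG hp) := by
    have := succ_le_treewidth_iff.2 h1
    omega
  obtain ⟨S, hS, -⟩ := pack_of_isMinor (hw _ inferInstance _ h2)
  have h3 := card_of_pack (fun C hC => five_le_of_nonAc hp (by norm_num) hC) hS
  omega

end Pool.Agent.Helper97.Pendant
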