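import Mathlib
import Pool.Agent.Helper97.Pendant.Finiteness

set_option autoImplicit false

namespace Pool.Agent.Helper97.Pendant

open SimpleGraph

variable {V W U : Type}

lemma pack_avoid [Finite V] {G : SimpleGraph V} {k : ℕ} {S : Set V} {x : V} (h : Pack G k S)
    (hx : (G.neighborSet x ∩ S).ncard ≤ 1) : Pack G k (S \ {x}) := by
  obtain ⟨C, h1, h2, h3⟩ := h
  choose D hDC hDne hD using fun i => exists_core_of_nonAc (h2 i)
  refine ⟨D, ?_, fun i => nonAc_of_two_le (hDne i) (hD i), fun i j hij =>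
    (h3 i j hij).mono (hDC i) (hDC j)⟩
  intro i y hy
  refine ⟨h1 i (hDC i hy), ?_⟩
  rintro rfl
  have h4 := hD i y hy
  have h5 : G.neighborSet y ∩ D i ⊆ G.neighborSet y ∩ S :=
    Set.inter_subset_inter_right _ ((hDC i).trans (h1 i))
  have h6 := Set.ncard_le_ncard h5 (Set.toFinite _)
  omega

/-- Greedy packing of short cycles. -/
lemma greedy_pack [Finite V] {G : SimpleGraph V} {k c : ℕ}
    (h : ∀ S : Set V, S.ncard + c ≤ c * k → ∃ C ⊆ Sᶜ, NonAc G C ∧ C.ncard ≤ c) :
    ∀ j ≤ k, ∃ S, Pack G j S ∧ S.ncard ≤ c * j := by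
  intro j
  induction j with
  | zero => intro _; exact ⟨∅, pack_zero G ∅, by simp⟩
  | succ j ih =>
    intro hj
    obtain ⟨S, hS1, hS2⟩ := ih (by omega)
    obtain ⟨C, hC1, hC2, hC3⟩ := h S (by
      have : c * (j + 1) ≤ c * k := Nat.mul_le_mul_left c hj
      rw [Nat.mul_add, Nat.mul_one] at this
      omega)
    refine ⟨S ∪ C, Pack.succ hC2 Set.subset_union_right (hS1.mono ?_), ?_⟩
    · intro y hy
      exact ⟨Or.inl hy, fun h => hC1 h hy⟩
    · have := Set.ncard_union_le S C
      rw [Nat.mul_add, Nat.mul_one]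
      omega

lemma exists_four_cycle [Finite V] {G : SimpleGraph V} {T : Set V} (hT : T.Nonempty) {d : ℕ}
    (hd : ∀ v ∈ T, d + 1 ≤ (G.neighborSet v ∩ T).ncard) (hdT : T.ncard ≤ (d + 1) * d) :
    ∃ C ⊆ T, NonAc G C ∧ C.ncard ≤ 4 := by
  classical
  obtain ⟨v, hv⟩ := hT
  obtain ⟨f, hf1, hf2⟩ := exists_injection (hd v hv)
  have h1 : ∀ i : Fin (d + 1), d ≤ ((G.neighborSet (f i) ∩ T) \ {v}).ncard := by
    intro i
    have h2 := hd (f i) (hf2 i).2
    have h3 := Set.ncard_le_ncard (show G.neighborSet (f i) ∩ T ⊆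
      insert v ((G.neighborSet (f i) ∩ T) \ {v}) by
        intro y hy
        by_cases hyv : y = v
        · left; exact hyv
        · right; exact ⟨hy, hyv⟩) (Set.toFinite _)
    have h4 := Set.ncard_insert_le v ((G.neighborSet (f i) ∩ T) \ {v})
    omega
  choose g hg1 hg2 using fun i => exists_injection (h1 i)
  have h2 : ¬ Function.Injective (fun p : Fin (d + 1) × Fin d =>
      (⟨g p.1 p.2, (hg2 p.1 p.2).1.2, (hg2 p.1 p.2).2⟩ : (T \ {v} : Set V))) := by
    intro hinj
    have h3 := Nat.card_le_card_of_injective _ hinj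
    rw [Nat.card_prod, Nat.card_eq_fintype_card, Nat.card_eq_fintype_card, Fintype.card_fin,
      Fintype.card_fin, Nat.card_coe_set_eq] at h3
    have h4 : (T \ {v}).ncard < T.ncard := Set.ncard_sdiff_singleton_lt_of_mem hv
    omega
  unfold Function.Injective at h2
  push Not at h2
  obtain ⟨⟨i, j⟩, ⟨i', j'⟩, h3, h4⟩ := h2
  have h3' : g i j = g i' j' := congrArg Subtype.val h3
  have hii : i ≠ i' := by
    rintro rfl
    exact h4 (by rw [hg1 i h3'])
  have hff : f i ≠ f i' := fun h => hii (hf1 h)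
  set w := g i j with hw
  have a1 : G.Adj v (f i) := (hf2 i).1
  have a2 : G.Adj v (f i') := (hf2 i').1
  have a3 : G.Adj (f i) w := (hg2 i j).1.1
  have a4 : G.Adj (f i') w := h3' ▸ (hg2 i' j').1.1
  have hwv : w ≠ v := (hg2 i j).2
  have hwT : w ∈ T := (hg2 i j).1.2
  have hQ : (G.induce ({w, f i} ∪ {w, f i'})).Connected :=
    induce_union_connected (induce_pair_connected_of_adj a3.symm).preconnected
      (induce_pair_connected_of_adj a4.symm).preconnected ⟨w, by simp, by simp⟩
  have hvQ : v ∉ ({w, f i} ∪ {w, f i'} : Set V) := by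
    rintro ((h | h) | (h | h))
    · exact hwv h.symm
    · exact a1.ne h
    · exact hwv h.symm
    · exact a2.ne h
  refine ⟨insert v ({w, f i} ∪ {w, f i'}), ?_, nonAc_insert hQ hvQ (by simp) (by simp) hff a1 a2,
    ?_⟩
  · rintro y (rfl | ((rfl | rfl) | (rfl | rfl)))
    · exact hv
    · exact hwT
    · exact (hf2 i).2
    · exact hwT
    · exact (hf2 i').2
  · have e : insert v ({w, f i} ∪ {w, f i'}) = ({v, w, f i, f i'} : Set V) := by
      ext y; simp only [Set.mem_insert_iff, Set.mem_union, Set.mem_singleton_iff]; tauto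
    rw [e]
    have := Set.ncard_insert_le v ({w, f i, f i'} : Set V)
    have := Set.ncard_insert_le w ({f i, f i'} : Set V)
    have := Set.ncard_insert_le (f i) ({f i'} : Set V)
    rw [Set.ncard_singleton] at this
    omega

lemma exists_triangle [Finite V] {G : SimpleGraph V} {T : Set V} (hT : T.Nonempty) {d : ℕ}
    (hd : ∀ v ∈ T, d + 1 ≤ (G.neighborSet v ∩ T).ncard) (hdT : T.ncard < 2 * (d + 1)) :
    ∃ C ⊆ T, NonAc G C ∧ C.ncard ≤ 3 := by
  obtain ⟨v, hv⟩ := hT
  have h1 : (G.neighborSet v ∩ T).Nonempty := by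
    rw [← Set.ncard_pos (Set.toFinite _)]
    have := hd v hv
    omega
  obtain ⟨u, hu1, hu2⟩ := h1
  have h2 : ((G.neighborSet v ∩ T) ∩ (G.neighborSet u ∩ T)).Nonempty := by
    rw [← Set.ncard_pos (Set.toFinite _)]
    have h3 := Set.ncard_union_add_ncard_inter (G.neighborSet v ∩ T) (G.neighborSet u ∩ T)
    have h4 := Set.ncard_le_ncard (show (G.neighborSet v ∩ T) ∪ (G.neighborSet u ∩ T) ⊆ T from
      Set.union_subset Set.inter_subset_right Set.inter_subset_right) (Set.toFinite _)
    have h5 := hd v hv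
    have h6 := hd u hu2
    omega
  obtain ⟨w, ⟨hw1, hw2⟩, hw3, -⟩ := h2
  have a1 : G.Adj v u := hu1
  have a2 : G.Adj v w := hw1
  have a3 : G.Adj u w := hw3
  refine ⟨insert v {u, w}, ?_, nonAc_insert (induce_pair_connected_of_adj a3) ?_ (by simp)
    (by simp) a3.ne a1 a2, ?_⟩
  · rintro y (rfl | rfl | rfl)
    · exact hv
    · exact hu2
    · exact hw2
  · rintro (h | h)
    · exact a1.ne h
    · exact a2.ne h
  · have := Set.ncard_insert_le v ({u, w} : Set V)
    have := Set.ncard_insert_le u ({w} : Set V)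
    rw [Set.ncard_singleton] at this
    omega

lemma pairs_remove_many [Finite V] (G : SimpleGraph V) (S M : Set V) {d : ℕ}
    (h : ∀ v ∈ M, (G.neighborSet v).ncard ≤ d) :
    (pairsIn G S).ncard ≤ (pairsIn G (S \ M)).ncard + 2 * (M.ncard * d) := by
  induction M, Set.toFinite M using Set.Finite.induction_on with
  | empty => simp
  | @insert a M ha hM ih =>
    have ih' := ih (fun v hv => h v (Set.mem_insert_of_mem _ hv))
    have h1 := pairsIn_remove G (S \ M) a
    have h2 : (S \ M) \ {a} = S \ insert a M := by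
      ext y; simp only [Set.mem_sdiff, Set.mem_singleton_iff, Set.mem_insert_iff]; tauto
    rw [h2] at h1
    have h3 : (G.neighborSet a ∩ (S \ M)).ncard ≤ d :=
      (Set.ncard_le_ncard Set.inter_subset_left (Set.toFinite _)).trans
        (h a (Set.mem_insert _ _))
    rw [Set.ncard_insert_of_notMem ha (Set.toFinite _), Nat.add_mul, Nat.one_mul]
    omega

lemma pairs_univ_ge' [Finite V] (G : SimpleGraph V) {d : ℕ} {S : Set V}
    (h : ∀ v ∈ S, d ≤ (G.neighborSet v).ncard) :
    d * S.ncard ≤ (pairsIn G Set.univ).ncard := by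
  classical
  have : ∀ v : S, ∃ f : Fin d → V, Function.Injective f ∧ ∀ i, f i ∈ G.neighborSet v :=
    fun v => exists_injection (h v v.2)
  choose f hf1 hf2 using this
  have h1 : Function.Injective (fun p : Fin d × S => ((p.2 : V), f p.2 p.1)) := by
    rintro ⟨i, v⟩ ⟨j, w⟩ hp
    simp only [Prod.mk.injEq] at hp
    obtain ⟨h1, h2⟩ := hp
    have h3 : v = w := Subtype.ext h1
    subst h3
    rw [hf1 v h2]
  have h2 : Set.range (fun p : Fin d × S => ((p.2 : V), f p.2 p.1)) ⊆ pairsIn G Set.univ := by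
    rintro _ ⟨⟨i, v⟩, rfl⟩
    exact ⟨trivial, trivial, hf2 v i⟩
  have h3 := Set.ncard_le_ncard h2 (Set.toFinite _)
  have h4 : (Set.range (fun p : Fin d × S => ((p.2 : V), f p.2 p.1))).ncard = d * S.ncard := by
    rw [← Set.image_univ, Set.ncard_image_of_injective _ h1, Set.ncard_univ, Nat.card_prod,
      Nat.card_eq_fintype_card, Fintype.card_fin, Nat.card_coe_set_eq]
  omega

/-- Every vertex of a critical graph has large degree. -/
lemma degree_of_critical [Finite V] {G : SimpleGraph V} {k F m' : ℕ}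
    (hF : F + 1 ∈ forcingWidths (trianglesAndPoints k 0)) (hG : F + m' + 1 ≤ treewidth G)
    (hcon : ¬ IsMinor (trianglesAndPoints k (m' + 1)) G) (x : V) :
    m' + 2 ≤ (G.neighborSet x).ncard := by
  by_contra hdeg
  apply hcon
  have hcard := card_of_le_treewidth hG
  obtain ⟨Z', hZ'1, hZ'2⟩ : ∃ Z' ⊆ G.neighborSet x, Z'.ncard = min m' (G.neighborSet x).ncard :=
    Set.exists_subset_card_eq (min_le_right _ _)
  have hxc : Z' ⊆ {x}ᶜ := by
    intro y hy
    have h1 : G.Adj x y := hZ'1 hy
    exact fun h => h1.ne (Set.mem_singleton_iff.1 h).symm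
  have hxcard : ({x}ᶜ : Set V).ncard + 1 = Nat.card V := by
    have := Set.ncard_add_ncard_compl ({x} : Set V)
    rw [Set.ncard_singleton] at this
    omega
  obtain ⟨Z, hZ1, hZ2, hZ3⟩ := Set.exists_subsuperset_card_eq hxc
    (n := m') (by rw [hZ'2]; exact min_le_left _ _) (by omega)
  have hrest : (G.neighborSet x \ Z).ncard ≤ 1 := by
    have h1 := Set.ncard_le_ncard (show G.neighborSet x \ Z ⊆ G.neighborSet x \ Z' from
      Set.sdiff_subset_sdiff_right hZ1) (Set.toFinite _)
    have h2 := Set.ncard_sdiff_add_ncard_of_subset hZ'1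
    rw [hZ'2] at h2
    omega
  have h1 : ¬ TD G Zᶜ F := by
    intro h
    have h2 := td_union (Z := Z) h
    rw [Set.compl_union_self, hZ3] at h2
    exact (succ_le_treewidth_iff.1 hG) (td_univ_iff.2 h2)
  have h2 : IsMinor (trianglesAndPoints k 0) (G.induce Zᶜ) := by
    apply hF _ inferInstance
    rw [succ_le_treewidth_iff, td_iff]
    exact h1
  rw [isMinor_induce_iff] at h2
  obtain ⟨S, hS1, hS2, -⟩ := pack_of_minorIn h2
  have h3 : (G.neighborSet x ∩ S).ncard ≤ 1 :=
    (Set.ncard_le_ncard (show G.neighborSet x ∩ S ⊆ G.neighborSet x \ Z from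
      fun y hy => ⟨hy.1, hS1 hy.2⟩) (Set.toFinite _)).trans hrest
  have h4 := pack_avoid hS2 h3
  refine isMinor_of_pack h4 ?_
  have h5 : insert x Z ⊆ (S \ {x})ᶜ := by
    rintro y (rfl | hy)
    · exact fun h => h.2 rfl
    · exact fun h => hS1 h.1 hy
  have h6 := Set.ncard_le_ncard h5 (Set.toFinite _)
  have h7 : x ∉ Z := fun h => hZ2 h rfl
  rw [Set.ncard_insert_of_notMem h7 (Set.toFinite _), hZ3] at h6
  exact h6

lemma inter_compl_ge [Finite V] {N S : Set V} : N.ncard ≤ (N ∩ Sᶜ).ncard + S.ncard := by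
  have h1 : N ⊆ (N ∩ Sᶜ) ∪ S := by
    intro y hy
    by_cases h : y ∈ S
    · exact Or.inr h
    · exact Or.inl ⟨hy, h⟩
  exact (Set.ncard_le_ncard h1 (Set.toFinite _)).trans (Set.ncard_union_le _ _)

/-- A graph of large minimum degree with enough vertices contains the wanted minor. -/
lemma isMinor_of_degree [Finite V] {G : SimpleGraph V} {k m : ℕ} (hk : 1 ≤ k)
    (hm : 12 * k + 32 ≤ m) (hn : m + 3 * k ≤ Nat.card V)
    (hdeg : ∀ x, m + 1 ≤ (G.neighborSet x).ncard) : IsMinor (trianglesAndPoints k m) G := by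
  set n := Nat.card V with hndef
  have hcompl : ∀ S : Set V, S.ncard + Sᶜ.ncard = n := fun S => Set.ncard_add_ncard_compl S
  rcases Nat.lt_or_ge n (8 * m) with h8 | h8
  · rcases Nat.lt_or_ge n (m + 4 * k) with h4 | h4
    · -- packing triangles
      obtain ⟨S, hS1, hS2⟩ := greedy_pack (G := G) (k := k) (c := 3) (by
        intro S hS
        have h5 := hcompl S
        refine exists_triangle (d := m + 3 - 3 * k) ?_ ?_ ?_
        · rw [← Set.ncard_pos (Set.toFinite _)]; omega
        · intro v _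
          have h6 := inter_compl_ge (N := G.neighborSet v) (S := S)
          have h7 := hdeg v
          omega
        · omega) k le_rfl
      have h5 := hcompl S
      exact isMinor_of_pack hS1 (by omega)
    · -- packing four-cycles
      obtain ⟨S, hS1, hS2⟩ := greedy_pack (G := G) (k := k) (c := 4) (by
        intro S hS
        have h5 := hcompl S
        refine exists_four_cycle (d := m + 4 - 4 * k) ?_ ?_ ?_
        · rw [← Set.ncard_pos (Set.toFinite _)]; omega
        · intro v _
          have h6 := inter_compl_ge (N := G.neighborSet v) (S := S)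
          have h7 := hdeg v
          omega
        · have h6 : 12 * (m + 4 - 4 * k) ≤ (m + 4 - 4 * k + 1) * (m + 4 - 4 * k) :=
            Nat.mul_le_mul_right _ (by omega)
          omega) k le_rfl
      have h5 := hcompl S
      exact isMinor_of_pack hS1 (by omega)
  · -- many vertices
    set E := (pairsIn G Set.univ).ncard with hE
    have hE1 : (m + 1) * n ≤ E := by
      have := pairs_univ_ge' G (d := m + 1) (S := Set.univ) (fun v _ => hdeg v)
      rw [Set.ncard_univ] at this
      exact this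
    have hnpos : 0 < n := by omega
    set d0 := 2 * E / n with hd0
    have hd1 : n * d0 ≤ 2 * E := Nat.mul_div_le _ _
    have hd2 : 2 * E < n * (d0 + 1) := by
      have := Nat.lt_mul_div_succ (2 * E) hnpos
      exact this
    set L : Set V := {v | (G.neighborSet v).ncard ≤ d0} with hL
    have hLc : (d0 + 1) * Lᶜ.ncard ≤ E := by
      refine pairs_univ_ge' G (d := d0 + 1) (S := Lᶜ) (fun v hv => ?_)
      have : ¬ (G.neighborSet v).ncard ≤ d0 := hv
      omega
    have hLm : m ≤ L.ncard := by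
      by_contra hlt
      have h5 := hcompl L
      have h6 : n ≤ 2 * Lᶜ.ncard := by omega
      have h7 : n * (d0 + 1) ≤ 2 * Lᶜ.ncard * (d0 + 1) := Nat.mul_le_mul_right _ h6
      have h8 : 2 * Lᶜ.ncard * (d0 + 1) = 2 * ((d0 + 1) * Lᶜ.ncard) := by ring
      omega
    obtain ⟨M, hM1, hM2⟩ := Set.exists_subset_card_eq hLm
    have h5 := pairs_remove_many G Set.univ M (d := d0) (fun v hv => hM1 hv)
    rw [← Set.compl_eq_univ_sdiff, hM2] at h5
    have h6 : 8 * m * d0 ≤ n * d0 := Nat.mul_le_mul_right _ h8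
    have h7 : 8 * m * d0 = 8 * (m * d0) := by ring
    have h9 : 12 * k * n ≤ (m + 1) * n := Nat.mul_le_mul_right _ (by omega)
    have h10 : 12 * k * n = 2 * (6 * k * n) := by ring
    have h11 : 6 * k * Mᶜ.ncard ≤ 6 * k * n := by
      have := hcompl M
      exact Nat.mul_le_mul_left _ (by omega)
    have h12 : Pack G k Mᶜ := by
      refine pack_of_pairs G ?_ (by omega)
      rw [← Set.ncard_pos (Set.toFinite _)]
      have := hcompl M
      omega
    exact isMinor_of_pack h12 (by rw [compl_compl, hM2])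

/-- The upper bound: adding one isolated vertex to `k` triangles and `m'` isolated vertices
does not cost more than `F0 + m'` once `m'` is large. -/
theorem upper {k F0 m' : ℕ} (hk : 1 ≤ k) (hF0 : F0 ∈ forcingWidths (trianglesAndPoints k 0))
    (h3k : 3 * k ≤ F0) (hm : 12 * k + 32 ≤ m' + 1) :
    F0 + m' ∈ forcingWidths (trianglesAndPoints k (m' + 1)) := by
  obtain ⟨F, rfl⟩ : ∃ F, F0 = F + 1 := ⟨F0 - 1, by omega⟩
  intro V hV G hG
  have hG' : F + m' + 1 ≤ treewidth G := by omega
  by_contra hcon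
  have h1 := degree_of_critical hF0 hG' hcon
  have h2 := card_of_le_treewidth hG'
  exact hcon (isMinor_of_degree hk hm (by omega) h1)

end Pool.Agent.Helper97.Pendant
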