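import Mathlib
import Pool.Agent.Helper97.Pendant.Upper
import Pool.Agent.Helper97.Pendant.Host
import Pool.Agent.Helper97.Pendant.Drawing

set_option autoImplicit false

namespace Pool.Agent.Helper97.Pendant

open SimpleGraph

lemma forcingWidths_up {W : Type} {H : SimpleGraph W} {n n' : ℕ} (h : n ∈ forcingWidths H)
    (hn : n ≤ n') : n' ∈ forcingWidths H :=
  fun V hV G hG => h V hV G (hn.trans hG)

lemma forcingWidths_anti (k m : ℕ) :
    forcingWidths (trianglesAndPoints k (m + 1)) ⊆ forcingWidths (trianglesAndPoints k m) := by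
  intro n hn V hV G hG
  obtain ⟨S, hS, hm⟩ := pack_of_isMinor (hn V hV G hG)
  exact isMinor_of_pack hS (by omega)

lemma forcingWidths_succ {k m n : ℕ} (hn : n ∈ forcingWidths (trianglesAndPoints k m)) :
    n + 1 ∈ forcingWidths (trianglesAndPoints k (m + 1)) := by
  intro V hV G hG
  have hcard := card_of_le_treewidth hG
  have hne : Nonempty V := by
    by_contra h
    rw [not_nonempty_iff] at h
    have : Nat.card V = 0 := Nat.card_of_isEmpty
    omega
  obtain ⟨x⟩ := hne
  have h1 : n ≤ treewidth (G.induce ({x}ᶜ : Set V)) := by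
    rcases Nat.eq_zero_or_pos n with h0 | h0
    · omega
    · obtain ⟨n', rfl⟩ : ∃ n', n = n' + 1 := ⟨n - 1, by omega⟩
      rw [succ_le_treewidth_iff, td_iff]
      intro h
      have h2 := td_union (Z := {x}) h
      rw [Set.compl_union_self, Set.ncard_singleton] at h2
      exact (succ_le_treewidth_iff.1 hG) (td_univ_iff.2 h2)
  have h2 := hn _ inferInstance _ h1
  rw [isMinor_induce_iff] at h2
  obtain ⟨S, hS1, hS2, hS3⟩ := pack_of_minorIn h2
  refine isMinor_of_pack hS2 ?_
  have h3 : insert x ({x}ᶜ \ S) ⊆ Sᶜ := by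
    rintro y (rfl | hy)
    · exact fun h => hS1 h rfl
    · exact hy.2
  have h4 := Set.ncard_le_ncard h3 (Set.toFinite _)
  rw [Set.ncard_insert_of_notMem (fun h => h.1 rfl) (Set.toFinite _)] at h4
  omega

lemma forcingWidths_zero_nonempty (k : ℕ) : (forcingWidths (trianglesAndPoints k 0)).Nonempty := by
  obtain ⟨C, hC⟩ := exists_width_forcing k
  exact ⟨C + 1, fun V hV G hG => hC V hV G (succ_le_treewidth_iff.1 hG)⟩

lemma forcingWidths_nonempty (k m : ℕ) : (forcingWidths (trianglesAndPoints k m)).Nonempty := by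
  induction m with
  | zero => exact forcingWidths_zero_nonempty k
  | succ m ih => obtain ⟨n, hn⟩ := ih; exact ⟨n + 1, forcingWidths_succ hn⟩

lemma pos_of_mem_forcingWidths {k m n : ℕ}
    (h : n ∈ forcingWidths (trianglesAndPoints k (m + 1))) : 0 < n := by
  by_contra hn
  obtain ⟨B, hB, -⟩ := h Empty inferInstance ⊥ (by omega)
  obtain ⟨x⟩ := (hB (Sum.inr 0)).nonempty
  exact x.1.elim

lemma forcingWidths_pendant {k m : ℕ} (v : Fin k × Fin 3) :
    forcingWidths (attachPendant (trianglesAndPoints k m) (Sum.inl v)) =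
      forcingWidths (trianglesAndPoints k (m + 1)) := by
  apply Set.Subset.antisymm
  · intro n hn V hV G hG
    exact isMinor_of_pendant (hn V hV G hG)
  · intro n hn V hV G hG
    obtain ⟨n', rfl⟩ : ∃ n', n = n' + 1 := ⟨n - 1, by have := pos_of_mem_forcingWidths hn; omega⟩
    have h1 := succ_le_treewidth_iff.1 hG
    rw [td_univ_iff] at h1
    obtain ⟨S, hS1, hS2⟩ := exists_connected h1
    have h2 : n' + 1 ≤ treewidth (G.induce S) := by
      rw [succ_le_treewidth_iff, td_iff]; exact hS2
    have h3 := pendant_of_isMinor hS1 v (hn _ inferInstance _ h2)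
    rw [isMinor_induce_iff] at h3
    exact h3.isMinor

theorem main : ∃ k m : ℕ, 0 < k ∧ minorForcingWidth (trianglesAndPoints k (m + 1)) =
    minorForcingWidth (trianglesAndPoints k m) := by
  obtain ⟨k, hk, hlow⟩ := lower
  refine ⟨k, ?_⟩
  set F : ℕ → ℕ := fun m => minorForcingWidth (trianglesAndPoints k m) with hF
  have hmem : ∀ m, F m ∈ forcingWidths (trianglesAndPoints k m) :=
    fun m => Nat.sInf_mem (forcingWidths_nonempty k m)
  have h1 : ∀ m, F m ≤ F (m + 1) := fun m => Nat.sInf_le (forcingWidths_anti k m (hmem _))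
  have h2 : ∀ m, F (m + 1) ≤ F m + 1 := fun m => Nat.sInf_le (forcingWidths_succ (hmem _))
  by_contra hcon
  push Not at hcon
  have h3 : ∀ m, F (m + 1) = F m + 1 := by
    intro m
    have := hcon m hk
    have a := h1 m
    have b := h2 m
    simp only [hF] at a b ⊢
    omega
  have h4 : ∀ m, F m = F 0 + m := by
    intro m
    induction m with
    | zero => rfl
    | succ m ih => rw [h3, ih]; ring
  have h5 := upper (m' := 12 * k + 31) hk (hmem 0) (hlow _ (hmem 0)) (by omega)
  have h6 : F (12 * k + 31 + 1) ≤ F 0 + (12 * k + 31) := Nat.sInf_le h5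
  rw [h4] at h6
  omega

end Pool.Agent.Helper97.Pendant
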